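import Mathlib

/-!
# Partial sums of power series with unimodular coefficients are not flat from below

Counting zeros of polynomials in a disc (copied from the starting file `Helper550/Semi.lean`), and the
application: if `|a_n| = 1` for all `n` then the minimum over the unit circle of the modulus of the
`N`-th partial sum does not tend to infinity with `N`.
-/

set_option autoImplicit false

namespace Pool.Agent.V11315.Flat

open Polynomial Complex Metric Filter
open scoped Real

section rou

/-- number of zeros in the open disc of radius `r` -/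
noncomputable def nz (r : ℝ) (f : ℂ[X]) : ℕ := by
  classical
  exact (f.roots.filter (fun z => ‖z‖ < r)).card

theorem integral_inv_out {r : ℝ} {w : ℂ} (hr : 0 < r) (hw : r < ‖w‖) :
    (∮ z in C(0, r), (z - w)⁻¹) = 0 := by
  apply DiffContOnCl.circleIntegral_eq_zero hr.le
  have hne : ∀ z ∈ closedBall (0 : ℂ) r, z - w ≠ 0 := by
    intro z hz h
    rw [sub_eq_zero] at h
    rw [mem_closedBall_zero_iff, h] at hz
    linarith
  apply DifferentiableOn.diffContOnCl
  intro z hz
  rw [closure_ball (0 : ℂ) hr.ne'] at hz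
  exact ((differentiableAt_id.sub_const w).inv (hne z hz)).differentiableWithinAt

theorem circleIntegrable_inv {r : ℝ} {w : ℂ} (hr : 0 < r) (hw : ‖w‖ ≠ r) :
    CircleIntegrable (fun z => (z - w)⁻¹) 0 r := by
  apply ContinuousOn.circleIntegrable hr.le
  apply ContinuousOn.inv₀
  · fun_prop
  · intro z hz h
    rw [sub_eq_zero] at h
    rw [mem_sphere_zero_iff_norm, h] at hz
    exact hw hz

theorem integral_multiset {r : ℝ} (hr : 0 < r) (s : Multiset ℂ) (hs : ∀ w ∈ s, ‖w‖ ≠ r) :
    CircleIntegrable (fun z => (s.map (fun w => (z - w)⁻¹)).sum) 0 r ∧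
    (∮ z in C(0, r), (s.map (fun w => (z - w)⁻¹)).sum) =
      (2 * π * I) * ((by classical exact (s.filter (fun z => ‖z‖ < r)).card : ℕ) : ℂ) := by
  classical
  induction s using Multiset.induction_on with
  | empty =>
    constructor
    · simp only [Multiset.map_zero, Multiset.sum_zero]
      exact circleIntegrable_const 0 0 r
    · simp [circleIntegral]
  | cons a s ih =>
    obtain ⟨ih1, ih2⟩ := ih (fun w hw => hs w (Multiset.mem_cons_of_mem hw))
    have ha := hs a (Multiset.mem_cons_self a s)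
    have hai := circleIntegrable_inv hr ha
    simp only [Multiset.map_cons, Multiset.sum_cons]
    refine ⟨hai.add ih1, ?_⟩
    rw [circleIntegral.integral_add hai ih1, ih2]
    by_cases hlt : ‖a‖ < r
    · rw [Multiset.filter_cons_of_pos (p := fun z : ℂ => ‖z‖ < r) s hlt, Multiset.card_cons,
        circleIntegral.integral_sub_inv_of_mem_ball (by rw [mem_ball_zero_iff]; exact hlt)]
      push_cast
      ring
    · rw [Multiset.filter_cons_of_neg (p := fun z : ℂ => ‖z‖ < r) s hlt, integral_inv_out hr (lt_of_le_of_ne (not_lt.mp hlt) (Ne.symm ha)),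
        zero_add]

theorem logDeriv_eq {f : ℂ[X]} {z : ℂ} (hz : f.eval z ≠ 0) :
    f.derivative.eval z / f.eval z = (f.roots.map (fun w => (z - w)⁻¹)).sum := by
  rw [(IsAlgClosed.splits f).eval_derivative_div_eval_of_ne_zero hz]
  simp only [one_div]

theorem integral_logDeriv {r : ℝ} (hr : 0 < r) {f : ℂ[X]} (hf : ∀ z : ℂ, ‖z‖ = r → f.eval z ≠ 0) :
    CircleIntegrable (fun z => f.derivative.eval z / f.eval z) 0 r ∧
    (∮ z in C(0, r), f.derivative.eval z / f.eval z) = (2 * π * I) * (nz r f : ℂ) := by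
  classical
  have hs : ∀ w ∈ f.roots, ‖w‖ ≠ r := by
    intro w hw hwr
    have hf0 : f ≠ 0 := by
      rintro rfl
      simp at hw
    exact hf w hwr ((mem_roots hf0).mp hw)
  obtain ⟨h1, h2⟩ := integral_multiset hr f.roots hs
  constructor
  · apply ContinuousOn.circleIntegrable hr.le
    apply ContinuousOn.div
    · fun_prop
    · fun_prop
    · intro z hz
      exact hf z (mem_sphere_zero_iff_norm.mp hz)
  · have h3 : (∮ z in C(0, r), f.derivative.eval z / f.eval z) =
        ∮ z in C(0, r), (f.roots.map (fun w => (z - w)⁻¹)).sum := by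
      apply circleIntegral.integral_congr hr.le
      intro z hz
      exact logDeriv_eq (hf z (mem_sphere_zero_iff_norm.mp hz))
    rw [h3, h2]
    rfl

/-- Rouche's theorem for polynomials on circles centred at the origin. -/
theorem rouche {r : ℝ} (hr : 0 < r) {f g : ℂ[X]}
    (h : ∀ z : ℂ, ‖z‖ = r → ‖f.eval z - g.eval z‖ < ‖f.eval z‖) : nz r f = nz r g := by
  have hf : ∀ z : ℂ, ‖z‖ = r → f.eval z ≠ 0 := by
    intro z hz h0
    have := h z hz
    rw [h0, norm_zero] at this
    exact absurd this (not_lt.mpr (norm_nonneg _))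
  have hg : ∀ z : ℂ, ‖z‖ = r → g.eval z ≠ 0 := by
    intro z hz h0
    have := h z hz
    rw [h0, sub_zero] at this
    exact lt_irrefl _ this
  obtain ⟨f1, f2⟩ := integral_logDeriv hr hf
  obtain ⟨g1, g2⟩ := integral_logDeriv hr hg
  have h0 : (∮ z in C(0, r), (g.derivative.eval z / g.eval z - f.derivative.eval z / f.eval z)) = 0 := by
    apply circleIntegral.integral_eq_zero_of_hasDerivWithinAt (f := fun z => Complex.log (g.eval z / f.eval z)) hr.le
    intro z hz
    have hz' : ‖z‖ = r := mem_sphere_zero_iff_norm.mp hz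
    have hfz := hf z hz'
    have hgz := hg z hz'
    have hslit : g.eval z / f.eval z ∈ Complex.slitPlane := by
      have h1 : ‖g.eval z / f.eval z - 1‖ < 1 := by
        have h2 : g.eval z / f.eval z - 1 = (g.eval z - f.eval z) / f.eval z := by
          field_simp
        rw [h2, norm_div, div_lt_one (norm_pos_iff.mpr hfz), norm_sub_rev]
        exact h z hz'
      have h3 : 0 < (g.eval z / f.eval z).re := by
        have h4 := (abs_le.mp ((Complex.abs_re_le_norm (g.eval z / f.eval z - 1)).trans h1.le)).1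
        have h5 : |(g.eval z / f.eval z - 1).re| < 1 := (Complex.abs_re_le_norm _).trans_lt h1
        rw [Complex.sub_re, Complex.one_re] at h5
        have h6 := (abs_lt.mp h5).1
        linarith
      exact Or.inl h3
    have hd1 : HasDerivAt (fun w => g.eval w / f.eval w)
        ((g.derivative.eval z * f.eval z - g.eval z * f.derivative.eval z) / (f.eval z) ^ 2) z :=
      (g.hasDerivAt z).div (f.hasDerivAt z) hfz
    have hd2 := hd1.clog hslit
    have h7 : g.derivative.eval z / g.eval z - f.derivative.eval z / f.eval z =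
        (g.derivative.eval z * f.eval z - g.eval z * f.derivative.eval z) / (f.eval z) ^ 2 /
          (g.eval z / f.eval z) := by
      field_simp
    rw [h7]
    exact hd2.hasDerivWithinAt
  rw [circleIntegral.integral_sub g1 f1, f2, g2, ← mul_sub, mul_eq_zero] at h0
  have h8 : (2 * π * I : ℂ) ≠ 0 := by
    simp [Real.pi_ne_zero]
  have h9 := h0.resolve_left h8
  rw [sub_eq_zero] at h9
  exact_mod_cast h9.symm

end rou

section flat

/-- `a_1 + a_2 X + ... + a_N X^(N-1)` -/
noncomputable def P (a : ℕ → ℂ) (N : ℕ) : ℂ[X] :=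
  ∑ n ∈ Finset.range N, C (a (n + 1)) * X ^ n

theorem P_succ (a : ℕ → ℂ) (N : ℕ) : P a (N + 1) = P a N + C (a (N + 1)) * X ^ N := by
  unfold P
  rw [Finset.sum_range_succ]

theorem P_coeff (a : ℕ → ℂ) (N k : ℕ) : (P a N).coeff k = if k < N then a (k + 1) else 0 := by
  unfold P
  rw [finsetSum_coeff]
  simp only [coeff_C_mul, coeff_X_pow]
  by_cases h : k < N
  · rw [if_pos h, Finset.sum_eq_single k]
    · simp
    · intro b _ hb
      simp [Ne.symm hb]
    · intro h1
      exact absurd (Finset.mem_range.2 h) h1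
  · rw [if_neg h]
    apply Finset.sum_eq_zero
    intro b hb
    have : k ≠ b := by
      rw [Finset.mem_range] at hb
      omega
    simp [this]

theorem P_natDegree (a : ℕ → ℂ) (ha : ∀ n, 1 ≤ n → ‖a n‖ = 1) (N : ℕ) :
    (P a (N + 1)).natDegree = N := by
  apply natDegree_eq_of_le_of_coeff_ne_zero
  · rw [natDegree_le_iff_coeff_eq_zero]
    intro k hk
    rw [P_coeff, if_neg (by omega)]
  · rw [P_coeff, if_pos (by omega)]
    intro h
    have := ha (N + 1) (by omega)
    rw [h, norm_zero] at this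
    exact zero_ne_one this

theorem P_lead (a : ℕ → ℂ) (ha : ∀ n, 1 ≤ n → ‖a n‖ = 1) (N : ℕ) :
    ‖(P a (N + 1)).leadingCoeff‖ = 1 := by
  unfold leadingCoeff
  rw [P_natDegree a ha, P_coeff, if_pos (by omega)]
  exact ha _ (by omega)

theorem P_ne_zero (a : ℕ → ℂ) (ha : ∀ n, 1 ≤ n → ‖a n‖ = 1) (N : ℕ) : P a (N + 1) ≠ 0 := by
  intro h
  have := P_lead a ha N
  rw [h, leadingCoeff_zero, norm_zero] at this
  exact zero_ne_one this

theorem P_eval (a : ℕ → ℂ) (N : ℕ) (z : ℂ) :
    (P a N).eval z = ∑ n ∈ Finset.range N, a (n + 1) * z ^ n := by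
  unfold P
  rw [eval_finsetSum]
  simp

/-- all the roots have modulus at least one half -/
theorem root_ge (a : ℕ → ℂ) (ha : ∀ n, 1 ≤ n → ‖a n‖ = 1) (N : ℕ) {z : ℂ}
    (hz : (P a (N + 1)).eval z = 0) : 1 / 2 ≤ ‖z‖ := by
  by_contra hlt
  push Not at hlt
  rw [P_eval, Finset.sum_range_succ'] at hz
  simp only [pow_zero, mul_one, zero_add] at hz
  have h1 : ‖∑ k ∈ Finset.range N, a (k + 1 + 1) * z ^ (k + 1)‖ < 1 := by
    calc ‖∑ k ∈ Finset.range N, a (k + 1 + 1) * z ^ (k + 1)‖
        ≤ ∑ k ∈ Finset.range N, ‖a (k + 1 + 1) * z ^ (k + 1)‖ := norm_sum_le _ _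
      _ ≤ ∑ k ∈ Finset.range N, (1 / 2 : ℝ) ^ (k + 1) := by
          apply Finset.sum_le_sum
          intro k _
          rw [norm_mul, ha _ (by omega), one_mul, norm_pow]
          exact pow_le_pow_left₀ (norm_nonneg _) hlt.le _
      _ < 1 := by
          have : ∀ N : ℕ, ∑ k ∈ Finset.range N, (1 / 2 : ℝ) ^ (k + 1) = 1 - (1 / 2) ^ N := by
            intro N
            induction N with
            | zero => simp
            | succ N ih => rw [Finset.sum_range_succ, ih]; ring
          rw [this]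
          have : (0 : ℝ) < (1 / 2) ^ N := by positivity
          linarith
  have h2 : a 1 = -∑ k ∈ Finset.range N, a (k + 1 + 1) * z ^ (k + 1) := by
    linear_combination hz
  have h3 := ha 1 le_rfl
  rw [h2, norm_neg] at h3
  linarith

/-- the product of the moduli of all the roots is one -/
theorem prod_roots (a : ℕ → ℂ) (ha : ∀ n, 1 ≤ n → ‖a n‖ = 1) (N : ℕ) :
    ((P a (N + 1)).roots.map (fun z => ‖z‖)).prod = 1 := by
  have h1 := (IsAlgClosed.splits (P a (N + 1))).coeff_zero_eq_leadingCoeff_mul_prod_roots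
  have h2 : ‖(P a (N + 1)).coeff 0‖ = 1 := by
    rw [P_coeff, if_pos (by omega)]
    exact ha _ (by omega)
  rw [h1, norm_mul, norm_mul, P_lead a ha, norm_pow, norm_neg, norm_one, one_pow, one_mul,
    one_mul] at h2
  rw [← h2]
  exact (map_multiset_prod (normHom (α := ℂ)) (P a (N + 1)).roots).symm

/-- splitting the product of the moduli of the roots -/
theorem prod_split (s : Multiset ℂ) :
    (s.map (fun z => max 1 ‖z‖)).prod * (s.map (fun z => min 1 ‖z‖)).prod =
      (s.map (fun z => ‖z‖)).prod := by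
  rw [← Multiset.prod_map_mul]
  congr 1
  apply Multiset.map_congr rfl
  intro z _
  rcases le_total 1 ‖z‖ with h | h
  · rw [max_eq_right h, min_eq_left h, mul_one]
  · rw [max_eq_left h, min_eq_right h, one_mul]

theorem prod_min_ge (s : Multiset ℂ) (hs : ∀ z ∈ s, 1 / 2 ≤ ‖z‖) :
    (1 / 2 : ℝ) ^ ((by classical exact (s.filter (fun z => ‖z‖ < 1)).card : ℕ)) ≤
      (s.map (fun z => min 1 ‖z‖)).prod := by
  classical
  induction s using Multiset.induction_on with
  | empty => simp
  | cons a s ih =>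
    have ih' := ih (fun w hw => hs w (Multiset.mem_cons_of_mem hw))
    have ha := hs a (Multiset.mem_cons_self a s)
    rw [Multiset.map_cons, Multiset.prod_cons]
    have hpos : (0 : ℝ) < (1 / 2 : ℝ) ^ (s.filter (fun z => ‖z‖ < 1)).card := by positivity
    by_cases h : ‖a‖ < 1
    · rw [Multiset.filter_cons_of_pos (p := fun z : ℂ => ‖z‖ < 1) s h, Multiset.card_cons, pow_succ',
        min_eq_right h.le]
      exact mul_le_mul ha ih' hpos.le (by linarith)
    · rw [Multiset.filter_cons_of_neg (p := fun z : ℂ => ‖z‖ < 1) s h,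
        min_eq_left (not_lt.1 h), one_mul]
      exact ih'

/-- the Mahler measure is bounded in terms of the number of zeros in the unit disc -/
theorem mahler_le (a : ℕ → ℂ) (ha : ∀ n, 1 ≤ n → ‖a n‖ = 1) (N : ℕ) :
    (P a (N + 1)).mahlerMeasure ≤ 2 ^ nz 1 (P a (N + 1)) := by
  classical
  rw [mahlerMeasure_eq_leadingCoeff_mul_prod_roots, P_lead a ha, one_mul]
  have h1 := prod_split (P a (N + 1)).roots
  rw [prod_roots a ha] at h1
  have h2 := prod_min_ge (P a (N + 1)).roots (fun z hz => root_ge a ha N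
    ((mem_roots (P_ne_zero a ha N)).1 hz))
  have h3 : (0 : ℝ) ≤ ((P a (N + 1)).roots.map (fun z => max 1 ‖z‖)).prod := by
    apply Multiset.prod_nonneg
    intro x hx
    rw [Multiset.mem_map] at hx
    obtain ⟨z, _, rfl⟩ := hx
    exact le_max_of_le_left zero_le_one
  have h4 := mul_le_mul_of_nonneg_left h2 h3
  rw [h1] at h4
  have h5 : (0 : ℝ) < 2 ^ nz 1 (P a (N + 1)) := by positivity
  have h6 : ((1 : ℝ) / 2) ^ nz 1 (P a (N + 1)) * 2 ^ nz 1 (P a (N + 1)) = 1 := by
    rw [← mul_pow]; norm_num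
  have h7 : (((P a (N + 1)).roots.map (fun z => max 1 ‖z‖)).prod *
      (1 / 2 : ℝ) ^ nz 1 (P a (N + 1))) * 2 ^ nz 1 (P a (N + 1)) ≤ 1 * 2 ^ nz 1 (P a (N + 1)) :=
    mul_le_mul_of_nonneg_right h4 h5.le
  rw [mul_assoc, h6, mul_one, one_mul] at h7
  exact h7

/-- the Mahler measure is at least the minimum on the circle -/
theorem le_mahler {f : ℂ[X]} {c : ℝ} (hc : 0 < c) (hf : ∀ z : ℂ, ‖z‖ = 1 → c ≤ ‖f.eval z‖) :
    c ≤ f.mahlerMeasure := by
  have hf0 : f ≠ 0 := by
    rintro rfl
    have := hf 1 (by simp)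
    simp at this
    linarith
  rw [mahlerMeasure_def_of_ne_zero hf0]
  have hcirc : ∀ x : ℝ, ‖circleMap 0 1 x‖ = 1 := fun x => by
    simp [norm_circleMap_zero]
  have hcont : Continuous fun x : ℝ => Real.log ‖f.eval (circleMap 0 1 x)‖ := by
    apply Continuous.log
    · exact (f.continuous.comp (continuous_circleMap 0 1)).norm
    · intro x h0
      have := hf _ (hcirc x)
      linarith
  have h1 : ∫ _ in (0 : ℝ)..(2 * π), Real.log c ≤
      ∫ x in (0 : ℝ)..(2 * π), Real.log ‖f.eval (circleMap 0 1 x)‖ := by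
    apply intervalIntegral.integral_mono_on (by positivity)
    · exact intervalIntegrable_const
    · exact hcont.intervalIntegrable _ _
    · intro x _
      exact Real.log_le_log hc (hf _ (hcirc x))
  rw [intervalIntegral.integral_const, sub_zero, smul_eq_mul] at h1
  have hpi : (0 : ℝ) < 2 * π := by positivity
  rw [← Real.log_le_iff_le_exp hc]
  rw [inv_mul_eq_div, le_div_iff₀ hpi]
  linarith

/-- the minimum modulus on the circle of the partial sums does not tend to infinity -/
theorem main (a : ℕ → ℂ) (ha : ∀ n, 1 ≤ n → ‖a n‖ = 1) :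
    ∃ C : ℝ, ∃ᶠ N in atTop, ∃ z : ℂ, ‖z‖ = 1 ∧ ‖(P a N).eval z‖ ≤ C := by
  by_contra hcon
  push Not at hcon
  have h1 := hcon 1
  rw [Filter.eventually_atTop] at h1
  obtain ⟨N₀, hN₀⟩ := h1
  have hconst : ∀ k, nz 1 (P a (N₀ + 1 + k)) = nz 1 (P a (N₀ + 1)) := by
    intro k
    induction k with
    | zero => rfl
    | succ k ih =>
      rw [← ih]
      symm
      apply rouche one_pos
      intro z hz
      rw [show N₀ + 1 + (k + 1) = (N₀ + 1 + k) + 1 by ring, P_succ, eval_add, sub_add_cancel_left,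
        norm_neg, eval_mul, eval_C, eval_pow, eval_X, norm_mul, ha _ (by omega), norm_pow, hz,
        one_pow, one_mul]
      exact hN₀ (N₀ + 1 + k) (by omega) z hz
  have h2 := hcon (2 ^ nz 1 (P a (N₀ + 1)) + 1)
  rw [Filter.eventually_atTop] at h2
  obtain ⟨N₁, hN₁⟩ := h2
  have h3 := le_mahler (f := P a (N₀ + N₁ + 1)) (c := 2 ^ nz 1 (P a (N₀ + 1)) + 1) (by positivity)
    (fun z hz => (hN₁ (N₀ + N₁ + 1) (by omega) z hz).le)
  have h4 := mahler_le a ha (N₀ + N₁)
  have h5 := hconst N₁
  rw [show N₀ + 1 + N₁ = N₀ + N₁ + 1 by ring] at h5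
  rw [h5] at h4
  linarith

end flat

end Pool.Agent.V11315.Flat
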