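import Mathlib

/-!
# Hausdorff approximation of completed graphs by positive kernels forces continuity

If the completed graph of a bounded measurable function `f` is approximated by the graphs of
`T_i f = ∫ f (x + s) k_i (s) ds` at the rate `O(δ_i)`, where `δ_i` is the width of the probability
kernel `k_i`, then `f` is continuous.
-/

open MeasureTheory Set Filter Topology
open scoped ENNReal

namespace Pool.Agent.V11315.Haus

/-- The metric `ρ_α` of the plane. -/
noncomputable def rho (α : ℝ) (A B : ℝ × ℝ) : ℝ := max (α⁻¹ * |A.1 - B.1|) |A.2 - B.2|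

/-- The completed graph: the points `(x, y)` with `liminf f ≤ y ≤ limsup f` at `x` (the value of
`f` at `x` itself included in the lower and the upper limit). -/
def cgraph (f : ℝ → ℝ) : Set (ℝ × ℝ) :=
  {A | liminf f (𝓝 A.1) ≤ A.2 ∧ A.2 ≤ limsup f (𝓝 A.1)}

/-- Hausdorff distance between two sets of the plane for `ρ_α`. -/
noncomputable def setDist (α : ℝ) (F G : Set (ℝ × ℝ)) : ℝ≥0∞ :=
  max (⨆ A ∈ F, ⨅ B ∈ G, ENNReal.ofReal (rho α A B))
    (⨆ A ∈ G, ⨅ B ∈ F, ENNReal.ofReal (rho α A B))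

/-- The Hausdorff distance `r(α; f, g)` of two bounded functions. -/
noncomputable def hdist (α : ℝ) (f g : ℝ → ℝ) : ℝ≥0∞ := setDist α (cgraph f) (cgraph g)

/-- Probability kernels of width `δ i`. -/
structure GoodKernel {ι : Type*} (l : Filter ι) (k : ι → ℝ → ℝ) (δ : ι → ℝ) : Prop where
  nonneg : ∀ᶠ i in l, ∀ s, 0 ≤ k i s
  integrable : ∀ᶠ i in l, Integrable (k i)
  one : ∀ᶠ i in l, ∫ s, k i s = 1
  tail : ∀ d > 0, Tendsto (fun i => ∫ s in {s : ℝ | d ≤ |s|}, k i s) l (𝓝 0)
  low : ∀ L : ℝ, 0 < L → ∃ c > 0, ∀ᶠ i in l, ∀ s, |s| ≤ L * δ i → c / δ i ≤ k i s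
  pos : ∀ᶠ i in l, 0 < δ i
  lim : Tendsto δ l (𝓝 0)

section bounded

variable {f : ℝ → ℝ} {M : ℝ}

lemma bddAbove_of (hM : ∀ x, |f x| ≤ M) (l : Filter ℝ) : IsBoundedUnder (· ≤ ·) l f :=
  isBoundedUnder_of ⟨M, fun x => (abs_le.1 (hM x)).2⟩

lemma bddBelow_of (hM : ∀ x, |f x| ≤ M) (l : Filter ℝ) : IsBoundedUnder (· ≥ ·) l f :=
  isBoundedUnder_of ⟨-M, fun x => (abs_le.1 (hM x)).1⟩

lemma cobddAbove_of (hM : ∀ x, |f x| ≤ M) (l : Filter ℝ) [NeBot l] :
    IsCoboundedUnder (· ≤ ·) l f := (bddBelow_of hM l).isCoboundedUnder_flip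

lemma cobddBelow_of (hM : ∀ x, |f x| ≤ M) (l : Filter ℝ) [NeBot l] :
    IsCoboundedUnder (· ≥ ·) l f := (bddAbove_of hM l).isCoboundedUnder_flip

lemma liminf_le_limsup_of (hM : ∀ x, |f x| ≤ M) (l : Filter ℝ) [NeBot l] :
    liminf f l ≤ limsup f l := liminf_le_limsup (bddAbove_of hM l) (bddBelow_of hM l)

lemma limsup_le_of (hM : ∀ x, |f x| ≤ M) (l : Filter ℝ) [NeBot l] : limsup f l ≤ M :=
  limsup_le_of_le (cobddAbove_of hM l) (Eventually.of_forall fun x => (abs_le.1 (hM x)).2)

lemma le_liminf_of (hM : ∀ x, |f x| ≤ M) (l : Filter ℝ) [NeBot l] : -M ≤ liminf f l :=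
  le_liminf_of_le (cobddBelow_of hM l) (Eventually.of_forall fun x => (abs_le.1 (hM x)).1)

lemma continuousAt_of_eq (hM : ∀ x, |f x| ≤ M) {x : ℝ}
    (h : limsup f (𝓝 x) ≤ liminf f (𝓝 x)) : ContinuousAt f x := by
  have := tendsto_of_le_liminf_of_limsup_le (a := liminf f (𝓝 x)) le_rfl h
    (bddAbove_of hM _) (bddBelow_of hM _)
  exact continuousAt_of_tendsto_nhds this

/-- points of the graph of `g` close to the upper end of the completed graph of `f` at `x` -/
lemma near_upper {α : ℝ} (hα : 0 < α) (hM : ∀ x, |f x| ≤ M) {g : ℝ → ℝ} {M' : ℝ}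
    (hg : ∀ x, |g x| ≤ M') {r : ℝ} (hr : hdist α f g < ENNReal.ofReal r) (x : ℝ) {e : ℝ}
    (he : 0 < e) : ∃ t, |t - x| < α * r + e ∧ limsup f (𝓝 x) - r - e < g t := by
  have hmem : (x, limsup f (𝓝 x)) ∈ cgraph f := ⟨liminf_le_limsup_of hM _, le_rfl⟩
  have h1 : (⨅ B ∈ cgraph g, ENNReal.ofReal (rho α (x, limsup f (𝓝 x)) B)) <
      ENNReal.ofReal r := by
    refine lt_of_le_of_lt ?_ hr
    refine le_trans ?_ (le_max_left _ _)
    exact le_iSup₂ (f := fun A (_ : A ∈ cgraph f) =>
      ⨅ B ∈ cgraph g, ENNReal.ofReal (rho α A B)) _ hmem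
  obtain ⟨B, hB⟩ := iInf_lt_iff.1 h1
  obtain ⟨hBg, hB⟩ := iInf_lt_iff.1 hB
  have h2 : rho α (x, limsup f (𝓝 x)) B < r := (ENNReal.ofReal_lt_ofReal_iff_of_nonneg
    (le_max_of_le_right (abs_nonneg _))).1 hB
  unfold rho at h2
  obtain ⟨h3, h4⟩ := max_lt_iff.1 h2
  simp only at h3 h4
  have h5 : |x - B.1| < α * r := by
    rwa [inv_mul_lt_iff₀ hα] at h3
  have h6 : B.2 - e < limsup g (𝓝 B.1) := by linarith [hBg.2]
  have h7 := frequently_lt_of_lt_limsup (cobddAbove_of hg _) h6
  obtain ⟨t, ht1, ht2⟩ := (h7.and_eventually (Metric.ball_mem_nhds B.1 he)).exists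
  refine ⟨t, ?_, ?_⟩
  · rw [Real.dist_eq] at ht2
    calc |t - x| = |(t - B.1) + (B.1 - x)| := by ring_nf
      _ ≤ |t - B.1| + |B.1 - x| := abs_add_le _ _
      _ < e + α * r := by
        rw [abs_sub_comm B.1 x]
        exact add_lt_add ht2 h5
      _ = α * r + e := by ring
  · have := (abs_lt.1 h4).2
    linarith

/-- points of the graph of `g` close to the lower end of the completed graph of `f` at `x` -/
lemma near_lower {α : ℝ} (hα : 0 < α) (hM : ∀ x, |f x| ≤ M) {g : ℝ → ℝ} {M' : ℝ}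
    (hg : ∀ x, |g x| ≤ M') {r : ℝ} (hr : hdist α f g < ENNReal.ofReal r) (x : ℝ) {e : ℝ}
    (he : 0 < e) : ∃ t, |t - x| < α * r + e ∧ g t < liminf f (𝓝 x) + r + e := by
  have hmem : (x, liminf f (𝓝 x)) ∈ cgraph f := ⟨le_rfl, liminf_le_limsup_of hM _⟩
  have h1 : (⨅ B ∈ cgraph g, ENNReal.ofReal (rho α (x, liminf f (𝓝 x)) B)) <
      ENNReal.ofReal r := by
    refine lt_of_le_of_lt ?_ hr
    refine le_trans ?_ (le_max_left _ _)
    exact le_iSup₂ (f := fun A (_ : A ∈ cgraph f) =>
      ⨅ B ∈ cgraph g, ENNReal.ofReal (rho α A B)) _ hmem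
  obtain ⟨B, hB⟩ := iInf_lt_iff.1 h1
  obtain ⟨hBg, hB⟩ := iInf_lt_iff.1 hB
  have h2 : rho α (x, liminf f (𝓝 x)) B < r := (ENNReal.ofReal_lt_ofReal_iff_of_nonneg
    (le_max_of_le_right (abs_nonneg _))).1 hB
  unfold rho at h2
  obtain ⟨h3, h4⟩ := max_lt_iff.1 h2
  simp only at h3 h4
  have h5 : |x - B.1| < α * r := by
    rwa [inv_mul_lt_iff₀ hα] at h3
  have h6 : liminf g (𝓝 B.1) < B.2 + e := by linarith [hBg.1]
  have h7 := frequently_lt_of_liminf_lt (cobddBelow_of hg _) h6
  obtain ⟨t, ht1, ht2⟩ := (h7.and_eventually (Metric.ball_mem_nhds B.1 he)).exists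
  refine ⟨t, ?_, ?_⟩
  · rw [Real.dist_eq] at ht2
    calc |t - x| = |(t - B.1) + (B.1 - x)| := by ring_nf
      _ ≤ |t - B.1| + |B.1 - x| := abs_add_le _ _
      _ < e + α * r := by
        rw [abs_sub_comm B.1 x]
        exact add_lt_add ht2 h5
      _ = α * r + e := by ring
  · have := (abs_lt.1 h4).1
    linarith

end bounded

lemma shift_eq (f k : ℝ → ℝ) (x : ℝ) : ∫ s, f (x + s) * k s = ∫ t, f t * k (t - x) := by
  rw [← integral_add_left_eq_self (fun t => f t * k (t - x)) x]
  simp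

/-- The basic inequality. -/
lemma core {f k : ℝ → ℝ} {M : ℝ} (hf : AEMeasurable f) (hM : ∀ x, |f x| ≤ M)
    (hk0 : ∀ s, 0 ≤ k s) (hki : Integrable k) (hk1 : ∫ s, k s = 1)
    {x0 S I η d : ℝ} (hS : |S| ≤ M) (hI : |I| ≤ M) (hη : 0 ≤ η)
    (hSI : I ≤ S) (hloc : ∀ t, |t - x0| < d → I - η ≤ f t ∧ f t ≤ S + η)
    {x x' : ℝ} (hx : |x - x0| ≤ d / 2) (hx' : |x' - x0| ≤ d / 2)
    {c δ L : ℝ} (hδ : 0 < δ) (hlow : ∀ s, |s| ≤ L * δ → c / δ ≤ k s)
    (hxL : |x - x0| ≤ (L - 1) * δ) (hxL' : |x' - x0| ≤ (L - 1) * δ) :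
    (∫ s, f (x + s) * k s) - (∫ s, f (x' + s) * k s) ≤
      (S - I + 2 * η) * (1 - 2 * c) + 4 * M * ∫ s in {s : ℝ | d / 2 ≤ |s|}, k s := by
  have hM0 : 0 ≤ M := (abs_nonneg _).trans (hM 0)
  rw [shift_eq, shift_eq]
  set a : ℝ → ℝ := fun t => k (t - x) with ha
  set b : ℝ → ℝ := fun t => k (t - x') with hb
  have hai : Integrable a := hki.comp_sub_right x
  have hbi : Integrable b := hki.comp_sub_right x'
  have ha1 : ∫ t, a t = 1 := by rw [ha, integral_sub_right_eq_self k x, hk1]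
  have hb1 : ∫ t, b t = 1 := by rw [hb, integral_sub_right_eq_self k x', hk1]
  set m : ℝ → ℝ := fun t => min (a t) (b t) with hm
  have hmi : Integrable m := hai.inf hbi
  have hfa : Integrable (fun t => f t * a t) :=
    hai.bdd_mul hf.aestronglyMeasurable (Eventually.of_forall fun x => by
      rw [Real.norm_eq_abs]; exact hM x)
  have hfb : Integrable (fun t => f t * b t) :=
    hbi.bdd_mul hf.aestronglyMeasurable (Eventually.of_forall fun x => by
      rw [Real.norm_eq_abs]; exact hM x)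
  have hmeas : MeasurableSet {s : ℝ | d / 2 ≤ |s|} := by
    exact (isClosed_le continuous_const continuous_abs).measurableSet
  set τ : ℝ → ℝ := {s : ℝ | d / 2 ≤ |s|}.indicator k with hτ
  have hτi : Integrable τ := hki.indicator hmeas
  have hτ1 : ∫ s, τ s = ∫ s in {s : ℝ | d / 2 ≤ |s|}, k s := integral_indicator hmeas
  have hτ0 : ∀ s, 0 ≤ τ s := fun s => indicator_nonneg (fun s _ => hk0 s) s
  -- mass of the minimum
  have hmass : 2 * c ≤ ∫ t, m t := by
    have hle : ∀ t, (Icc (x0 - δ) (x0 + δ)).indicator (fun _ => c / δ) t ≤ m t := by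
      intro t
      by_cases ht : t ∈ Icc (x0 - δ) (x0 + δ)
      · rw [indicator_of_mem ht]
        have h1 : |t - x0| ≤ δ := by
          rw [abs_le]
          constructor <;> linarith [ht.1, ht.2]
        refine le_min (hlow _ ?_) (hlow _ ?_)
        · calc |t - x| = |(t - x0) - (x - x0)| := by ring_nf
            _ ≤ |t - x0| + |x - x0| := abs_sub _ _
            _ ≤ δ + (L - 1) * δ := add_le_add h1 hxL
            _ = L * δ := by ring
        · calc |t - x'| = |(t - x0) - (x' - x0)| := by ring_nf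
            _ ≤ |t - x0| + |x' - x0| := abs_sub _ _
            _ ≤ δ + (L - 1) * δ := add_le_add h1 hxL'
            _ = L * δ := by ring
      · rw [indicator_of_notMem ht]
        exact le_min (hk0 _) (hk0 _)
    have hint : ∫ t, (Icc (x0 - δ) (x0 + δ)).indicator (fun _ => c / δ) t = 2 * c := by
      rw [integral_indicator measurableSet_Icc, setIntegral_const, smul_eq_mul,
        Real.volume_real_Icc_of_le (by linarith)]
      field_simp
      ring
    rw [← hint]
    apply integral_mono _ hmi hle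
    exact (integrable_indicator_iff measurableSet_Icc).2 (integrableOn_const
      (by rw [Real.volume_Icc]; exact ENNReal.ofReal_ne_top))
  have hpt : ∀ t, f t * a t - f t * b t ≤
      (S + η) * (a t - m t) - (I - η) * (b t - m t) + 2 * M * (τ (t - x) + τ (t - x')) := by
    intro t
    have ham : 0 ≤ a t - m t := sub_nonneg.2 (min_le_left _ _)
    have hbm : 0 ≤ b t - m t := sub_nonneg.2 (min_le_right _ _)
    have hm0 : 0 ≤ m t := le_min (hk0 _) (hk0 _)
    have ha0 : 0 ≤ a t := hk0 _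
    have hb0 : 0 ≤ b t := hk0 _
    by_cases ht : |t - x0| < d
    · obtain ⟨h1, h2⟩ := hloc t ht
      have h3 : f t * (a t - m t) ≤ (S + η) * (a t - m t) := mul_le_mul_of_nonneg_right h2 ham
      have h4 : (I - η) * (b t - m t) ≤ f t * (b t - m t) := mul_le_mul_of_nonneg_right h1 hbm
      have h5 : 0 ≤ 2 * M * (τ (t - x) + τ (t - x')) :=
        mul_nonneg (by linarith) (add_nonneg (hτ0 _) (hτ0 _))
      nlinarith
    · push Not at ht
      have hmx : t - x ∈ {s : ℝ | d / 2 ≤ |s|} := by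
        simp only [mem_ofPred_eq]
        have : |t - x0| ≤ |t - x| + |x - x0| := by
          calc |t - x0| = |(t - x) + (x - x0)| := by ring_nf
            _ ≤ _ := abs_add_le _ _
        linarith
      have hmx' : t - x' ∈ {s : ℝ | d / 2 ≤ |s|} := by
        simp only [mem_ofPred_eq]
        have : |t - x0| ≤ |t - x'| + |x' - x0| := by
          calc |t - x0| = |(t - x') + (x' - x0)| := by ring_nf
            _ ≤ _ := abs_add_le _ _
        linarith
      have e1 : τ (t - x) = a t := by rw [hτ, indicator_of_mem hmx]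
      have e2 : τ (t - x') = b t := by rw [hτ, indicator_of_mem hmx']
      rw [e1, e2]
      have h1 := abs_le.1 (hM t)
      have h2 := abs_le.1 hS
      have h3 := abs_le.1 hI
      have h4 : f t * a t ≤ M * a t := mul_le_mul_of_nonneg_right h1.2 ha0
      have h5 : -M * b t ≤ f t * b t := mul_le_mul_of_nonneg_right h1.1 hb0
      have h6 : -M * (a t - m t) ≤ (S + η) * (a t - m t) :=
        mul_le_mul_of_nonneg_right (by linarith) ham
      have h7 : (I - η) * (b t - m t) ≤ M * (b t - m t) :=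
        mul_le_mul_of_nonneg_right (by linarith) hbm
      have h8 : 0 ≤ M * m t := mul_nonneg hM0 hm0
      nlinarith
  have hA : Integrable (fun t => a t - m t) := hai.sub hmi
  have hB : Integrable (fun t => b t - m t) := hbi.sub hmi
  have hC : Integrable (fun t => τ (t - x)) := hτi.comp_sub_right x
  have hD : Integrable (fun t => τ (t - x')) := hτi.comp_sub_right x'
  have hCD : Integrable (fun t => τ (t - x) + τ (t - x')) := hC.add hD
  have hA' : Integrable (fun t => (S + η) * (a t - m t)) := hA.const_mul _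
  have hB' : Integrable (fun t => (I - η) * (b t - m t)) := hB.const_mul _
  have hCD' : Integrable (fun t => 2 * M * (τ (t - x) + τ (t - x'))) := hCD.const_mul _
  have hAB : Integrable (fun t => (S + η) * (a t - m t) - (I - η) * (b t - m t)) := hA'.sub hB'
  have hF : Integrable (fun t => f t * a t - f t * b t) := hfa.sub hfb
  have hG : Integrable (fun t => (S + η) * (a t - m t) - (I - η) * (b t - m t) +
      2 * M * (τ (t - x) + τ (t - x'))) := hAB.add hCD'
  have hint := integral_mono hF hG hpt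
  have h3 : (∫ t, f t * a t) - ∫ t, f t * b t ≤
      (S + η) * (1 - ∫ t, m t) - (I - η) * (1 - ∫ t, m t) +
      2 * M * ((∫ s, τ s) + ∫ s, τ s) := by
    rw [integral_sub hfa hfb, integral_add hAB hCD', integral_sub hA' hB', integral_const_mul,
      integral_const_mul, integral_const_mul, integral_sub hai hmi,
      integral_sub hbi hmi, integral_add hC hD,
      integral_sub_right_eq_self τ x, integral_sub_right_eq_self τ x', ha1, hb1] at hint
    exact hint
  rw [hτ1] at h3
  have h4 : (S - I + 2 * η) * (1 - ∫ t, m t) ≤ (S - I + 2 * η) * (1 - 2 * c) :=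
    mul_le_mul_of_nonneg_left (by linarith) (by linarith)
  nlinarith

/-- **Abstract theorem.** -/
theorem main {ι : Type*} {l : Filter ι} [NeBot l] {k : ι → ℝ → ℝ} {δ : ι → ℝ}
    (hk : GoodKernel l k δ) {f : ℝ → ℝ} (hf : AEMeasurable f) {M : ℝ} (hM : ∀ x, |f x| ≤ M)
    {α : ℝ} (hα : 0 < α) {T : ι → ℝ → ℝ} (hT : ∀ᶠ i in l, ∀ x, T i x = ∫ s, f (x + s) * k i s)
    {C : ℝ} (hC : 0 < C) (hd : ∀ᶠ i in l, hdist α f (T i) < ENNReal.ofReal (C * δ i)) :
    Continuous f := by
  rw [continuous_iff_continuousAt]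
  intro x0
  by_contra hcont
  set S := limsup f (𝓝 x0) with hSdef
  set I := liminf f (𝓝 x0) with hIdef
  have hSI : I < S := by
    by_contra h
    push Not at h
    exact hcont (continuousAt_of_eq hM h)
  have hM0 : 0 ≤ M := (abs_nonneg _).trans (hM 0)
  have hS : |S| ≤ M := abs_le.2 ⟨(le_liminf_of hM _).trans hSI.le, limsup_le_of hM _⟩
  have hI : |I| ≤ M := abs_le.2 ⟨le_liminf_of hM _, hSI.le.trans (limsup_le_of hM _)⟩
  obtain ⟨c, hc, hlow⟩ := hk.low (α * C + 2) (by positivity)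
  set η : ℝ := c * (S - I) / 2 with hη
  have hη0 : 0 < η := by
    have : 0 < S - I := by linarith
    positivity
  -- a neighbourhood where `f` is between `I - η` and `S + η`
  have hev : ∀ᶠ t in 𝓝 x0, I - η ≤ f t ∧ f t ≤ S + η := by
    have h1 := eventually_lt_of_limsup_lt (show limsup f (𝓝 x0) < S + η by linarith)
      (bddAbove_of hM _)
    have h2 := eventually_lt_of_lt_liminf (show I - η < liminf f (𝓝 x0) by linarith)
      (bddBelow_of hM _)
    filter_upwards [h1, h2] with t h1 h2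
    exact ⟨h2.le, h1.le⟩
  obtain ⟨d, hd0, hball⟩ := Metric.eventually_nhds_iff.1 hev
  have hloc : ∀ t, |t - x0| < d → I - η ≤ f t ∧ f t ≤ S + η := by
    intro t ht
    exact hball (by rwa [Real.dist_eq])
  have hsmall : ∀ᶠ i in l, (α * C + 1) * δ i ≤ d / 2 := by
    have h1 : Tendsto (fun i => (α * C + 1) * δ i) l (𝓝 ((α * C + 1) * 0)) :=
      hk.lim.const_mul _
    rw [mul_zero] at h1
    exact h1.eventually_le_const (by linarith)
  have hineq : ∀ᶠ i in l, S - I - 2 * (C + 1) * δ i ≤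
      (S - I + 2 * η) * (1 - 2 * c) + 4 * M * ∫ s in {s : ℝ | d / 2 ≤ |s|}, k i s := by
    filter_upwards [hk.nonneg, hk.integrable, hk.one, hlow, hk.pos, hT, hd, hsmall] with i
      h0 hi h1 hlo hpos hTi hdi hsm
    have hTb : ∀ x, |T i x| ≤ M := by
      intro x
      rw [hTi, shift_eq]
      calc |∫ t, f t * k i (t - x)| ≤ ∫ t, |f t * k i (t - x)| := abs_integral_le_integral_abs
        _ ≤ ∫ t, M * k i (t - x) := by
          apply integral_mono_of_nonneg (Eventually.of_forall fun _ => abs_nonneg _)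
            ((hi.comp_sub_right x).const_mul M)
          refine Eventually.of_forall fun t => ?_
          simp only
          rw [abs_mul, abs_of_nonneg (h0 _)]
          exact mul_le_mul_of_nonneg_right (hM t) (h0 _)
        _ = M := by
          rw [integral_const_mul, integral_sub_right_eq_self (k i) x, h1, mul_one]
    obtain ⟨x, hx1, hx2⟩ := near_upper hα hM hTb hdi x0 hpos
    obtain ⟨x', hx1', hx2'⟩ := near_lower hα hM hTb hdi x0 hpos
    have e1 : α * (C * δ i) + δ i = (α * C + 1) * δ i := by ring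
    rw [e1] at hx1 hx1'
    have hcore := core hf hM h0 hi h1 hS hI hη0.le hSI.le hloc (hx1.le.trans hsm)
      (hx1'.le.trans hsm) hpos hlo (x := x) (x' := x')
      (by have : α * C + 2 - 1 = α * C + 1 := by ring
          rw [this]; exact hx1.le)
      (by have : α * C + 2 - 1 = α * C + 1 := by ring
          rw [this]; exact hx1'.le)
    rw [← hTi, ← hTi] at hcore
    rw [← hSdef] at hx2
    rw [← hIdef] at hx2'
    linarith
  have hlim1 : Tendsto (fun i => S - I - 2 * (C + 1) * δ i) l (𝓝 (S - I)) := by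
    have := (hk.lim.const_mul (2 * (C + 1))).const_sub (S - I)
    simpa using this
  have hlim2 : Tendsto (fun i => (S - I + 2 * η) * (1 - 2 * c) +
      4 * M * ∫ s in {s : ℝ | d / 2 ≤ |s|}, k i s) l (𝓝 ((S - I + 2 * η) * (1 - 2 * c))) := by
    have := ((hk.tail (d / 2) (by linarith)).const_mul (4 * M)).const_add
      ((S - I + 2 * η) * (1 - 2 * c))
    simpa using this
  have hfin := le_of_tendsto_of_tendsto hlim1 hlim2 hineq
  have hpos : 0 < S - I := by linarith
  have : 0 < c * (S - I) := mul_pos hc hpos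
  have h2 : 0 ≤ η * c := by positivity
  rw [hη] at hfin h2
  nlinarith

end Pool.Agent.V11315.Haus
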