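import Pool.Agent.V11315.Haus

/-!
# The kernels of Gauss-Weierstrass, Abel-Poisson and de la Vallée-Poussin
-/

open MeasureTheory Set Filter Topology Real
open scoped ENNReal Nat

namespace Pool.Agent.V11315.Haus

/-! ### Gauss-Weierstrass -/

/-- the Gauss-Weierstrass kernel -/
noncomputable def kW (n : ℕ) (s : ℝ) : ℝ := √((n : ℝ) / π) * exp (-(n : ℝ) * s ^ 2)

lemma kW_nonneg (n : ℕ) (s : ℝ) : 0 ≤ kW n s := by unfold kW; positivity

lemma kW_integrable {n : ℕ} (hn : 0 < n) : Integrable (kW n) := by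
  unfold kW
  exact (integrable_exp_neg_mul_sq (by exact_mod_cast hn)).const_mul _

lemma kW_one {n : ℕ} (hn : 0 < n) : ∫ s, kW n s = 1 := by
  unfold kW
  have hn' : (0:ℝ) < n := by exact_mod_cast hn
  rw [integral_const_mul, integral_gaussian, ← Real.sqrt_mul (by positivity)]
  have : (n : ℝ) / π * (π / n) = 1 := by field_simp
  rw [this, Real.sqrt_one]

lemma goodW : GoodKernel atTop kW (fun n : ℕ => 1 / √(n : ℝ)) where
  nonneg := Eventually.of_forall kW_nonneg
  integrable := (eventually_gt_atTop 0).mono fun n hn => kW_integrable hn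
  one := (eventually_gt_atTop 0).mono fun n hn => kW_one hn
  tail := by
    intro d hd
    have hmeas : MeasurableSet {s : ℝ | d ≤ |s|} :=
      (isClosed_le continuous_const continuous_abs).measurableSet
    have hub : ∀ᶠ n : ℕ in atTop, ∫ s in {s : ℝ | d ≤ |s|}, kW n s ≤
        exp (d ^ 2) * ((n : ℝ) ^ (1 / 2 : ℝ) * exp (-(d ^ 2) * n)) := by
      filter_upwards [eventually_ge_atTop 1] with n hn
      have hn' : (1:ℝ) ≤ n := by exact_mod_cast hn
      have h1 : ∀ s ∈ {s : ℝ | d ≤ |s|}, kW n s ≤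
          (√((n : ℝ) / π) * exp (-((n : ℝ) - 1) * d ^ 2)) * exp (-1 * s ^ 2) := by
        intro s hs
        have hs' : d ≤ |s| := hs
        unfold kW
        rw [mul_assoc, ← exp_add]
        apply mul_le_mul_of_nonneg_left _ (sqrt_nonneg _)
        apply exp_le_exp.2
        have h2 : d ^ 2 ≤ s ^ 2 := by
          rw [← sq_abs s]
          exact pow_le_pow_left₀ hd.le hs' 2
        nlinarith
      calc ∫ s in {s : ℝ | d ≤ |s|}, kW n s
          ≤ ∫ s in {s : ℝ | d ≤ |s|},
            (√((n : ℝ) / π) * exp (-((n : ℝ) - 1) * d ^ 2)) * exp (-1 * s ^ 2) := by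
            apply setIntegral_mono_on (kW_integrable (by omega)).integrableOn _ hmeas h1
            exact ((integrable_exp_neg_mul_sq one_pos).const_mul _).integrableOn
        _ ≤ ∫ s, (√((n : ℝ) / π) * exp (-((n : ℝ) - 1) * d ^ 2)) * exp (-1 * s ^ 2) := by
            apply setIntegral_le_integral
            · exact (integrable_exp_neg_mul_sq one_pos).const_mul _
            · exact Eventually.of_forall fun s => by
                simp only [Pi.zero_apply]
                positivity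
        _ = √((n : ℝ) / π) * exp (-((n : ℝ) - 1) * d ^ 2) * √π := by
            rw [integral_const_mul, integral_gaussian, div_one]
        _ = exp (d ^ 2) * ((n : ℝ) ^ (1 / 2 : ℝ) * exp (-(d ^ 2) * n)) := by
            rw [Real.sqrt_div (by positivity), ← Real.sqrt_eq_rpow]
            have e1 : exp (-((n : ℝ) - 1) * d ^ 2) = exp (d ^ 2) * exp (-(d ^ 2) * n) := by
              rw [← exp_add]
              congr 1
              ring
            rw [e1]
            have : √π ≠ 0 := by positivity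
            field_simp
    have hlim : Tendsto (fun n : ℕ => exp (d ^ 2) * ((n : ℝ) ^ (1 / 2 : ℝ) *
        exp (-(d ^ 2) * n))) atTop (𝓝 0) := by
      have h1 := (tendsto_rpow_mul_exp_neg_mul_atTop_nhds_zero (1 / 2) (d ^ 2)
        (by positivity)).comp tendsto_natCast_atTop_atTop
      simpa [Function.comp_def] using h1.const_mul (exp (d ^ 2))
    apply tendsto_of_tendsto_of_tendsto_of_le_of_le' tendsto_const_nhds hlim
    · exact Eventually.of_forall fun n => setIntegral_nonneg hmeas fun s _ => kW_nonneg n s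
    · exact hub
  low := by
    intro L hL
    refine ⟨exp (-L ^ 2) / √π, by positivity, ?_⟩
    filter_upwards [eventually_gt_atTop 0] with n hn s hs
    have hn' : (0:ℝ) < n := by exact_mod_cast hn
    have hsq : 0 < √(n : ℝ) := Real.sqrt_pos.2 hn'
    have h1 : s ^ 2 * n ≤ L ^ 2 := by
      have h2 : |s| * √(n : ℝ) ≤ L := by
        rw [mul_one_div, le_div_iff₀ hsq] at hs
        exact hs
      have h3 := pow_le_pow_left₀ (by positivity) h2 2
      rw [mul_pow, sq_abs, Real.sq_sqrt hn'.le] at h3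
      exact h3
    unfold kW
    rw [div_div_eq_mul_div, div_one, Real.sqrt_div hn'.le]
    calc exp (-L ^ 2) / √π * √(n : ℝ) = √(n : ℝ) / √π * exp (-L ^ 2) := by ring
      _ ≤ √(n : ℝ) / √π * exp (-(n : ℝ) * s ^ 2) := by
        apply mul_le_mul_of_nonneg_left _ (by positivity)
        apply exp_le_exp.2
        linarith
  pos := (eventually_gt_atTop 0).mono fun n hn => by
    have hn' : (0:ℝ) < n := by exact_mod_cast hn
    positivity
  lim := by
    have h1 : Tendsto (fun n : ℕ => √(n : ℝ)) atTop atTop :=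
      Real.tendsto_sqrt_atTop.comp tendsto_natCast_atTop_atTop
    refine h1.inv_tendsto_atTop.congr fun n => ?_
    simp

/-! ### Abel-Poisson -/

/-- the Abel-Poisson kernel on the circle -/
noncomputable def pois (ρ t : ℝ) : ℝ := (1 - ρ ^ 2) / (1 - 2 * ρ * cos t + ρ ^ 2)

/-- the Abel-Poisson kernel, cut to one period -/
noncomputable def kP (ρ : ℝ) (s : ℝ) : ℝ := (Ioc (-π) π).indicator (fun t => (2 * π)⁻¹ * pois ρ t) s

lemma pois_den_pos {ρ : ℝ} (h0 : 0 < ρ) (h1 : ρ < 1) (t : ℝ) :
    0 < 1 - 2 * ρ * cos t + ρ ^ 2 := by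
  nlinarith [cos_le_one t, mul_nonneg h0.le (sub_nonneg.2 (cos_le_one t)),
    sq_pos_of_pos (sub_pos.2 h1)]

lemma pois_nonneg {ρ : ℝ} (h0 : 0 < ρ) (h1 : ρ < 1) (t : ℝ) : 0 ≤ pois ρ t := by
  unfold pois
  apply div_nonneg _ (pois_den_pos h0 h1 t).le
  nlinarith

lemma pois_cont {ρ : ℝ} (h0 : 0 < ρ) (h1 : ρ < 1) : Continuous (pois ρ) := by
  unfold pois
  apply Continuous.div (by fun_prop) (by fun_prop)
  exact fun t => (pois_den_pos h0 h1 t).ne'

lemma kP_nonneg {ρ : ℝ} (h0 : 0 < ρ) (h1 : ρ < 1) (s : ℝ) : 0 ≤ kP ρ s := by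
  unfold kP
  apply indicator_nonneg
  intro t _
  exact mul_nonneg (by positivity) (pois_nonneg h0 h1 t)

lemma kP_integrable {ρ : ℝ} (h0 : 0 < ρ) (h1 : ρ < 1) : Integrable (kP ρ) := by
  unfold kP
  rw [integrable_indicator_iff measurableSet_Ioc]
  apply ((pois_cont h0 h1).const_mul _).continuousOn.integrableOn_Icc.mono_set Ioc_subset_Icc_self

lemma pois_periodic (ρ : ℝ) : Function.Periodic (pois ρ) (2 * π) := by
  intro t
  unfold pois
  rw [cos_add_two_pi]

lemma pois_integral {ρ : ℝ} (h0 : 0 < ρ) (h1 : ρ < 1) :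
    ∫ t in (-π)..π, pois ρ t = 2 * π := by
  have hper := (pois_periodic ρ).intervalIntegral_add_eq (-π) 0
  have e1 : -π + 2 * π = π := by ring
  rw [e1, zero_add] at hper
  rw [hper]
  have hd : DiffContOnCl ℂ (fun _ : ℂ => (1:ℂ)) (Metric.ball 0 1) := diffContOnCl_const
  have hw : ((ρ : ℝ) : ℂ) ∈ Metric.ball (0:ℂ) 1 := by
    rw [mem_ball_zero_iff, Complex.norm_real, Real.norm_eq_abs, abs_of_pos h0]
    exact h1
  have h2 := hd.circleAverage_poissonKernel_smul hw
  rw [Real.circleAverage_def] at h2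
  have h3 : ∀ θ : ℝ, (poissonKernel 0 (ρ : ℂ) • (fun _ : ℂ => (1:ℂ))) (circleMap 0 1 θ) =
      ((pois ρ θ : ℝ) : ℂ) := by
    intro θ
    have h4 : ‖circleMap 0 1 θ - (ρ : ℂ)‖ ^ 2 = 1 - 2 * ρ * cos θ + ρ ^ 2 := by
      rw [← Complex.normSq_eq_norm_sq, Complex.normSq_apply]
      simp only [circleMap, Complex.ofReal_one, one_mul, zero_add, Complex.sub_re, Complex.sub_im,
        Complex.exp_ofReal_mul_I_re, Complex.exp_ofReal_mul_I_im, Complex.ofReal_re,
        Complex.ofReal_im, sub_zero]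
      nlinarith [sin_sq_add_cos_sq θ]
    have h5 : ‖circleMap 0 1 θ‖ = 1 := by simp
    have h6 : ‖(ρ : ℂ)‖ = ρ := by
      rw [Complex.norm_real, Real.norm_eq_abs, abs_of_pos h0]
    simp only [Pi.smul_apply', poissonKernel, sub_zero, h4, h5, h6, pois]
    simp
  simp only [h3] at h2
  rw [intervalIntegral.integral_ofReal] at h2
  have h7 : (2 * π)⁻¹ * (∫ t in (0:ℝ)..2 * π, pois ρ t) = 1 := by
    have := congrArg Complex.re h2
    simpa using this
  have hpi : (0:ℝ) < 2 * π := by positivity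
  field_simp at h7
  linarith

lemma kP_one {ρ : ℝ} (h0 : 0 < ρ) (h1 : ρ < 1) : ∫ s, kP ρ s = 1 := by
  unfold kP
  rw [integral_indicator measurableSet_Ioc, integral_const_mul,
    ← intervalIntegral.integral_of_le (by linarith [pi_pos]), pois_integral h0 h1]
  have : (2 * π) ≠ 0 := by positivity
  field_simp

lemma cos_le_cos_of_abs {d s : ℝ} (hd : 0 ≤ d) (hs : d ≤ |s|) (hs' : |s| ≤ π) :
    cos s ≤ cos d := by
  rw [← cos_abs s]
  exact cos_le_cos_of_nonneg_of_le_pi hd hs' hs

lemma abs_le_pi {s : ℝ} (hs : s ∈ Ioc (-π) π) : |s| ≤ π := abs_le.2 ⟨hs.1.le, hs.2⟩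

lemma good_mem : ∀ᶠ ρ : ℝ in 𝓝[<] 1, 0 < ρ ∧ ρ < 1 := by
  filter_upwards [Ioo_mem_nhdsLT (show (0:ℝ) < 1 by norm_num)] with ρ hρ
  exact hρ

lemma goodP : GoodKernel (𝓝[<] (1:ℝ)) kP (fun ρ => 1 - ρ) where
  nonneg := good_mem.mono fun ρ h => kP_nonneg h.1 h.2
  integrable := good_mem.mono fun ρ h => kP_integrable h.1 h.2
  one := good_mem.mono fun ρ h => kP_one h.1 h.2
  tail := by
    intro d hd
    set e : ℝ := min d 1 with he
    have he0 : 0 < e := lt_min hd one_pos
    have he1 : e ≤ 1 := min_le_right _ _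
    have hed : e ≤ d := min_le_left _ _
    have hcos : cos e < 1 := by
      rw [← cos_zero]
      exact cos_lt_cos_of_nonneg_of_le_pi le_rfl (he1.trans (by linarith [pi_gt_three])) he0
    have hmeas : MeasurableSet {s : ℝ | d ≤ |s|} :=
      (isClosed_le continuous_const continuous_abs).measurableSet
    have hub : ∀ᶠ ρ : ℝ in 𝓝[<] 1, ∫ s in {s : ℝ | d ≤ |s|}, kP ρ s ≤
        (1 - ρ ^ 2) / (1 - 2 * ρ * cos e + ρ ^ 2) := by
      filter_upwards [good_mem] with ρ hρ
      set B : ℝ := (1 - ρ ^ 2) / (1 - 2 * ρ * cos e + ρ ^ 2) with hB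
      have hB0 : 0 ≤ B := pois_nonneg hρ.1 hρ.2 e
      have h1 : ∀ s ∈ {s : ℝ | d ≤ |s|}, kP ρ s ≤
          (Ioc (-π) π).indicator (fun _ => (2 * π)⁻¹ * B) s := by
        intro s hs
        have hs' : d ≤ |s| := hs
        unfold kP
        by_cases hs2 : s ∈ Ioc (-π) π
        · rw [indicator_of_mem hs2, indicator_of_mem hs2]
          apply mul_le_mul_of_nonneg_left _ (by positivity)
          unfold pois
          rw [hB]
          apply div_le_div_of_nonneg_left (by nlinarith [hρ.1, hρ.2]) (pois_den_pos hρ.1 hρ.2 e)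
          have := cos_le_cos_of_abs he0.le (hed.trans hs') (abs_le_pi hs2)
          nlinarith [hρ.1]
        · rw [indicator_of_notMem hs2, indicator_of_notMem hs2]
      have hci : Integrable ((Ioc (-π) π).indicator (fun _ => (2 * π)⁻¹ * B)) :=
        (integrable_indicator_iff measurableSet_Ioc).2 (integrableOn_const
          (by rw [Real.volume_Ioc]; exact ENNReal.ofReal_ne_top))
      calc ∫ s in {s : ℝ | d ≤ |s|}, kP ρ s
          ≤ ∫ s in {s : ℝ | d ≤ |s|}, (Ioc (-π) π).indicator (fun _ => (2 * π)⁻¹ * B) s :=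
            setIntegral_mono_on (kP_integrable hρ.1 hρ.2).integrableOn hci.integrableOn hmeas h1
        _ ≤ ∫ s, (Ioc (-π) π).indicator (fun _ => (2 * π)⁻¹ * B) s := by
            apply setIntegral_le_integral hci
            refine Eventually.of_forall fun s => ?_
            exact indicator_nonneg (fun _ _ => by positivity) s
        _ = B := by
            rw [integral_indicator measurableSet_Ioc, setIntegral_const, smul_eq_mul,
              Real.volume_real_Ioc_of_le (by linarith [pi_pos])]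
            have : π ≠ 0 := pi_ne_zero
            field_simp
            ring
    have hlim : Tendsto (fun ρ : ℝ => (1 - ρ ^ 2) / (1 - 2 * ρ * cos e + ρ ^ 2))
        (𝓝[<] 1) (𝓝 0) := by
      have h1 : ContinuousAt (fun ρ : ℝ => (1 - ρ ^ 2) / (1 - 2 * ρ * cos e + ρ ^ 2)) 1 := by
        apply ContinuousAt.div (by fun_prop) (by fun_prop)
        have : 0 < 1 - 2 * 1 * cos e + 1 ^ 2 := by linarith
        exact this.ne'
      have h2 := h1.tendsto
      have e1 : ((1:ℝ) - 1 ^ 2) / (1 - 2 * 1 * cos e + 1 ^ 2) = 0 := by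
        norm_num
      rw [e1] at h2
      exact h2.mono_left nhdsWithin_le_nhds
    apply tendsto_of_tendsto_of_tendsto_of_le_of_le' tendsto_const_nhds hlim
    · exact good_mem.mono fun ρ h => setIntegral_nonneg hmeas fun s _ => kP_nonneg h.1 h.2 s
    · exact hub
  low := by
    intro L hL
    refine ⟨(2 * π)⁻¹ / (1 + L ^ 2), by positivity, ?_⟩
    have hsm : ∀ᶠ ρ : ℝ in 𝓝[<] 1, L * (1 - ρ) < π := by
      have h1 : Tendsto (fun ρ : ℝ => L * (1 - ρ)) (𝓝[<] 1) (𝓝 (L * (1 - 1))) := by
        have : Continuous (fun ρ : ℝ => L * (1 - ρ)) := by fun_prop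
        exact (this.tendsto 1).mono_left nhdsWithin_le_nhds
      rw [sub_self, mul_zero] at h1
      exact h1.eventually_lt_const pi_pos
    filter_upwards [good_mem, hsm] with ρ hρ hsm s hs
    have hmem : s ∈ Ioc (-π) π := by
      have := abs_lt.1 (hs.trans_lt hsm)
      exact ⟨this.1, this.2.le⟩
    have h1ρ : 0 < 1 - ρ := by linarith [hρ.2]
    unfold kP
    rw [indicator_of_mem hmem, div_div, div_eq_mul_inv]
    apply mul_le_mul_of_nonneg_left _ (by positivity)
    have hden : 1 - 2 * ρ * cos s + ρ ^ 2 ≤ (1 + L ^ 2) * (1 - ρ) ^ 2 := by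
      have h1 := one_sub_sq_div_two_le_cos (x := s)
      have h2 : s ^ 2 ≤ (L * (1 - ρ)) ^ 2 := by
        rw [← sq_abs s]
        exact pow_le_pow_left₀ (abs_nonneg _) hs 2
      have h3 : ρ * (1 - cos s) ≤ ρ * (s ^ 2 / 2) := mul_le_mul_of_nonneg_left (by linarith) hρ.1.le
      have h4 : ρ * s ^ 2 ≤ 1 * s ^ 2 := mul_le_mul_of_nonneg_right hρ.2.le (sq_nonneg _)
      nlinarith
    unfold pois
    rw [inv_le_iff_one_le_mul₀' (by positivity), mul_div_assoc', le_div_iff₀
      (pois_den_pos hρ.1 hρ.2 s), one_mul]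
    refine hden.trans ?_
    have h5 : (1 - ρ) ^ 2 ≤ (1 - ρ) * (1 - ρ ^ 2) := by
      have : (1 - ρ) * (1 - ρ ^ 2) = (1 - ρ) ^ 2 * (1 + ρ) := by ring
      rw [this]
      nlinarith [sq_nonneg (1 - ρ), hρ.1]
    nlinarith [sq_nonneg L]
  pos := good_mem.mono fun ρ h => by linarith [h.2]
  lim := by
    have : Continuous (fun ρ : ℝ => 1 - ρ) := by fun_prop
    have h := (this.tendsto 1).mono_left (nhdsWithin_le_nhds (s := Iio (1:ℝ)))
    simpa using h

/-! ### de la Vallée-Poussin -/

/-- the de la Vallée-Poussin kernel on the circle -/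
noncomputable def vp (n : ℕ) (t : ℝ) : ℝ :=
  ((n ! : ℝ) ^ 2 / ((2 * π) * ((2 * n)! : ℝ))) * (2 * cos (t / 2)) ^ (2 * n)

/-- the de la Vallée-Poussin kernel, cut to one period -/
noncomputable def kV (n : ℕ) (s : ℝ) : ℝ := (Ioc (-π) π).indicator (vp n) s

/-- the Wallis product -/
noncomputable def wal (n : ℕ) : ℝ := ∏ i ∈ Finset.range n, (2 * (i : ℝ) + 1) / (2 * i + 2)

lemma wal_pos (n : ℕ) : 0 < wal n := by
  unfold wal
  apply Finset.prod_pos
  intro i _
  positivity

lemma wal_succ (n : ℕ) : wal (n + 1) = wal n * ((2 * (n : ℝ) + 1) / (2 * n + 2)) := by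
  unfold wal
  rw [Finset.prod_range_succ]

lemma wal_sq_le (n : ℕ) : wal n ^ 2 * (2 * n + 1) ≤ 1 := by
  induction n with
  | zero => simp [wal]
  | succ n ih =>
    rw [wal_succ, mul_pow, div_pow]
    have h1 : (2 * (n : ℝ) + 1) ^ 2 / (2 * n + 2) ^ 2 * (2 * ((n + 1 : ℕ) : ℝ) + 1) ≤
        2 * n + 1 := by
      rw [div_mul_eq_mul_div, div_le_iff₀ (by positivity)]
      push_cast
      have hn : (0:ℝ) ≤ n := Nat.cast_nonneg n
      nlinarith
    calc wal n ^ 2 * ((2 * (n : ℝ) + 1) ^ 2 / (2 * n + 2) ^ 2) * (2 * ((n + 1 : ℕ) : ℝ) + 1)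
        = wal n ^ 2 * ((2 * (n : ℝ) + 1) ^ 2 / (2 * n + 2) ^ 2 *
          (2 * ((n + 1 : ℕ) : ℝ) + 1)) := by ring
      _ ≤ wal n ^ 2 * (2 * n + 1) := mul_le_mul_of_nonneg_left h1 (sq_nonneg _)
      _ ≤ 1 := ih

lemma one_le_wal (n : ℕ) : 1 ≤ wal n * (2 * n + 1) := by
  induction n with
  | zero => simp [wal]
  | succ n ih =>
    rw [wal_succ]
    have h1 : (2 * (n : ℝ) + 1) ≤
        (2 * (n : ℝ) + 1) / (2 * n + 2) * (2 * ((n + 1 : ℕ) : ℝ) + 1) := by
      rw [div_mul_eq_mul_div, le_div_iff₀ (by positivity)]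
      push_cast
      have hn : (0:ℝ) ≤ n := Nat.cast_nonneg n
      nlinarith
    calc 1 ≤ wal n * (2 * n + 1) := ih
      _ ≤ wal n * ((2 * (n : ℝ) + 1) / (2 * n + 2) * (2 * ((n + 1 : ℕ) : ℝ) + 1)) :=
        mul_le_mul_of_nonneg_left h1 (wal_pos n).le
      _ = _ := by ring

lemma wal_binom (n : ℕ) : ((n ! : ℝ) ^ 2 / ((2 * n)! : ℝ)) * (4 ^ n * wal n) = 1 := by
  induction n with
  | zero => simp [wal]
  | succ n ih =>
    have e1 : ((2 * (n + 1))! : ℝ) = (2 * n + 2) * (2 * n + 1) * ((2 * n)! : ℝ) := by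
      have : 2 * (n + 1) = 2 * n + 1 + 1 := by ring
      rw [this, Nat.factorial_succ, Nat.factorial_succ]
      push_cast
      ring
    have e2 : ((n + 1)! : ℝ) = (n + 1) * (n ! : ℝ) := by
      rw [Nat.factorial_succ]
      push_cast
      ring
    rw [e1, e2, wal_succ]
    have hf : ((2 * n)! : ℝ) ≠ 0 := by positivity
    have e3 : (((n : ℝ) + 1) ^ 2 * 4) / ((2 * n + 2) ^ 2) = 1 := by
      rw [div_eq_one_iff_eq (by positivity)]
      ring
    calc (((n : ℝ) + 1) * (n ! : ℝ)) ^ 2 / ((2 * n + 2) * (2 * n + 1) * ((2 * n)! : ℝ)) *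
          (4 ^ (n + 1) * (wal n * ((2 * (n : ℝ) + 1) / (2 * n + 2))))
        = ((n ! : ℝ) ^ 2 / ((2 * n)! : ℝ)) * (4 ^ n * wal n) *
          ((((n : ℝ) + 1) ^ 2 * 4) / ((2 * n + 2) ^ 2)) := by
          field_simp
          ring
      _ = 1 := by rw [ih, e3, one_mul]

lemma coeff_eq (n : ℕ) :
    (n ! : ℝ) ^ 2 / ((2 * π) * ((2 * n)! : ℝ)) * 4 ^ n = (2 * π)⁻¹ * (wal n)⁻¹ := by
  have h := wal_binom n
  have hw := (wal_pos n).ne'
  have hf : ((2 * n)! : ℝ) ≠ 0 := by positivity
  have hp : π ≠ 0 := pi_ne_zero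
  have h' : (n ! : ℝ) ^ 2 * (4 ^ n * wal n) = ((2 * n)! : ℝ) := by
    rw [div_mul_eq_mul_div, div_eq_one_iff_eq hf] at h
    exact h
  rw [← h']
  have hn : (n ! : ℝ) ≠ 0 := by positivity
  field_simp

lemma vp_eq (n : ℕ) (t : ℝ) : vp n t = (2 * π)⁻¹ * (wal n)⁻¹ * (cos (t / 2) ^ 2) ^ n := by
  unfold vp
  rw [mul_pow, pow_mul, pow_mul, show (2:ℝ) ^ 2 = 4 by norm_num, ← mul_assoc, coeff_eq]

lemma vp_nonneg (n : ℕ) (t : ℝ) : 0 ≤ vp n t := by
  rw [vp_eq]
  have := wal_pos n
  positivity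

lemma vp_cont (n : ℕ) : Continuous (vp n) := by
  unfold vp
  fun_prop

lemma vp_integral (n : ℕ) : ∫ t in (-π)..π, vp n t = 1 := by
  have h1 : ∀ t, vp n t = (2 * π)⁻¹ * (wal n)⁻¹ * (sin (t / 2 + π / 2)) ^ (2 * n) := by
    intro t
    rw [vp_eq, sin_add_pi_div_two, pow_mul]
  simp only [h1]
  rw [intervalIntegral.integral_const_mul]
  have h2 : ∫ t in (-π)..π, sin (t / 2 + π / 2) ^ (2 * n) =
      2 * ∫ x in (0:ℝ)..π, sin x ^ (2 * n) := by
    rw [intervalIntegral.integral_comp_div_add (fun x => sin x ^ (2 * n)) two_ne_zero]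
    have e1 : -π / 2 + π / 2 = 0 := by ring
    have e2 : π / 2 + π / 2 = π := by ring
    rw [e1, e2, smul_eq_mul]
  rw [h2, integral_sin_pow_even]
  have hw := (wal_pos n).ne'
  have hp : π ≠ 0 := pi_ne_zero
  change (2 * π)⁻¹ * (wal n)⁻¹ * (2 * (π * wal n)) = 1
  field_simp

lemma kV_nonneg (n : ℕ) (s : ℝ) : 0 ≤ kV n s := by
  unfold kV
  exact indicator_nonneg (fun t _ => vp_nonneg n t) s

lemma kV_integrable (n : ℕ) : Integrable (kV n) := by
  unfold kV
  exact (integrable_indicator_iff measurableSet_Ioc).2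
    ((vp_cont n).continuousOn.integrableOn_Icc.mono_set Ioc_subset_Icc_self)

lemma kV_one (n : ℕ) : ∫ s, kV n s = 1 := by
  unfold kV
  rw [integral_indicator measurableSet_Ioc,
    ← intervalIntegral.integral_of_le (by linarith [pi_pos]), vp_integral]

lemma goodV : GoodKernel atTop kV (fun n : ℕ => 1 / √(n : ℝ)) where
  nonneg := Eventually.of_forall kV_nonneg
  integrable := Eventually.of_forall kV_integrable
  one := Eventually.of_forall kV_one
  tail := by
    intro d hd
    set e : ℝ := min d 1 with he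
    have he0 : 0 < e := lt_min hd one_pos
    have he1 : e ≤ 1 := min_le_right _ _
    have hed : e ≤ d := min_le_left _ _
    have hcos : cos (e / 2) < 1 := by
      rw [← cos_zero]
      exact cos_lt_cos_of_nonneg_of_le_pi le_rfl (by linarith [pi_gt_three]) (by linarith)
    have hcos0 : 0 < cos (e / 2) := cos_pos_of_mem_Ioo ⟨by linarith [pi_pos],
      by linarith [pi_gt_three]⟩
    set q : ℝ := cos (e / 2) ^ 2 with hq
    have hq0 : 0 ≤ q := sq_nonneg _
    have hq1 : q < 1 := by
      rw [hq]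
      nlinarith
    have hmeas : MeasurableSet {s : ℝ | d ≤ |s|} :=
      (isClosed_le continuous_const continuous_abs).measurableSet
    have hub : ∀ n : ℕ, ∫ s in {s : ℝ | d ≤ |s|}, kV n s ≤ (2 * n + 1) * q ^ n := by
      intro n
      set B : ℝ := (wal n)⁻¹ * q ^ n with hB
      have hw := wal_pos n
      have hB0 : 0 ≤ B := by positivity
      have h1 : ∀ s ∈ {s : ℝ | d ≤ |s|}, kV n s ≤
          (Ioc (-π) π).indicator (fun _ => (2 * π)⁻¹ * B) s := by
        intro s hs
        have hs' : d ≤ |s| := hs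
        unfold kV
        by_cases hs2 : s ∈ Ioc (-π) π
        · rw [indicator_of_mem hs2, indicator_of_mem hs2, vp_eq, hB, mul_assoc]
          apply mul_le_mul_of_nonneg_left _ (by positivity)
          apply mul_le_mul_of_nonneg_left _ (by positivity)
          apply pow_le_pow_left₀ (sq_nonneg _)
          rw [hq]
          have hpi := abs_le_pi hs2
          have h2 : cos (s / 2) ≤ cos (e / 2) := by
            apply cos_le_cos_of_abs (by linarith)
            · rw [abs_div, abs_two]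
              linarith
            · rw [abs_div, abs_two]
              linarith
          have h3 : 0 ≤ cos (s / 2) := cos_nonneg_of_mem_Icc
            ⟨by linarith [hs2.1], by linarith [hs2.2]⟩
          exact pow_le_pow_left₀ h3 h2 2
        · rw [indicator_of_notMem hs2, indicator_of_notMem hs2]
      have hci : Integrable ((Ioc (-π) π).indicator (fun _ => (2 * π)⁻¹ * B)) :=
        (integrable_indicator_iff measurableSet_Ioc).2 (integrableOn_const
          (by rw [Real.volume_Ioc]; exact ENNReal.ofReal_ne_top))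
      calc ∫ s in {s : ℝ | d ≤ |s|}, kV n s
          ≤ ∫ s in {s : ℝ | d ≤ |s|}, (Ioc (-π) π).indicator (fun _ => (2 * π)⁻¹ * B) s :=
            setIntegral_mono_on (kV_integrable n).integrableOn hci.integrableOn hmeas h1
        _ ≤ ∫ s, (Ioc (-π) π).indicator (fun _ => (2 * π)⁻¹ * B) s := by
            apply setIntegral_le_integral hci
            refine Eventually.of_forall fun s => ?_
            exact indicator_nonneg (fun _ _ => by positivity) s
        _ = B := by
            rw [integral_indicator measurableSet_Ioc, setIntegral_const, smul_eq_mul,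
              Real.volume_real_Ioc_of_le (by linarith [pi_pos])]
            have : π ≠ 0 := pi_ne_zero
            field_simp
            ring
        _ ≤ (2 * n + 1) * q ^ n := by
            rw [hB]
            apply mul_le_mul_of_nonneg_right _ (by positivity)
            rw [inv_le_iff_one_le_mul₀' hw]
            exact one_le_wal n
    have hlim : Tendsto (fun n : ℕ => (2 * (n : ℝ) + 1) * q ^ n) atTop (𝓝 0) := by
      have h1 : Tendsto (fun n : ℕ => (n : ℝ) * q ^ n) atTop (𝓝 0) :=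
        tendsto_self_mul_const_pow_of_lt_one hq0 hq1
      have h2 : Tendsto (fun n : ℕ => q ^ n) atTop (𝓝 0) :=
        tendsto_pow_atTop_nhds_zero_of_lt_one hq0 hq1
      have h3 := (h1.const_mul 2).add h2
      simp only [mul_zero, add_zero] at h3
      refine h3.congr fun n => ?_
      ring
    apply tendsto_of_tendsto_of_tendsto_of_le_of_le tendsto_const_nhds hlim
    · exact fun n => setIntegral_nonneg hmeas fun s _ => kV_nonneg n s
    · exact hub
  low := by
    intro L hL
    refine ⟨(2 * π)⁻¹ * exp (-L ^ 2 / 2), by positivity, ?_⟩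
    filter_upwards [eventually_gt_atTop 0, eventually_ge_atTop (Nat.ceil (L ^ 2 / 4)),
      eventually_gt_atTop (Nat.ceil (L ^ 2))] with n hn hnL hnL2 s hs
    have hn' : (0:ℝ) < n := by exact_mod_cast hn
    have hsq : 0 < √(n : ℝ) := Real.sqrt_pos.2 hn'
    have h1 : s ^ 2 * n ≤ L ^ 2 := by
      have h2 : |s| * √(n : ℝ) ≤ L := by
        rw [mul_one_div, le_div_iff₀ hsq] at hs
        exact hs
      have h3 := pow_le_pow_left₀ (by positivity) h2 2
      rw [mul_pow, sq_abs, Real.sq_sqrt hn'.le] at h3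
      exact h3
    have hL4 : L ^ 2 / 4 ≤ n := Nat.ceil_le.1 hnL
    have hL1 : L ^ 2 < n := lt_of_le_of_lt (Nat.le_ceil _) (by exact_mod_cast hnL2)
    have hs1 : s ^ 2 < 1 := by
      by_contra h
      push Not at h
      nlinarith
    have habs : |s| < 1 := by
      rw [← sq_abs] at hs1
      nlinarith [abs_nonneg s]
    have hmem : s ∈ Ioc (-π) π := by
      have := abs_lt.1 habs
      exact ⟨by linarith [pi_gt_three], by linarith [pi_gt_three]⟩
    unfold kV
    rw [indicator_of_mem hmem, vp_eq, div_div_eq_mul_div, div_one]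
    set y : ℝ := L ^ 2 / (8 * n) with hy
    have hy0 : 0 ≤ y := by positivity
    have hy1 : y ≤ 1 / 2 := by
      rw [hy, div_le_iff₀ (by positivity)]
      linarith
    have hcos : 1 - y ≤ cos (s / 2) := by
      refine le_trans ?_ (one_sub_sq_div_two_le_cos (x := s / 2))
      have : (s / 2) ^ 2 / 2 ≤ y := by
        rw [hy, le_div_iff₀ (by positivity)]
        nlinarith
      linarith
    have hexp : exp (-2 * y) ≤ 1 - y := by
      have h2 : 0 < 1 - y := by linarith
      have h3 := one_sub_inv_le_log_of_pos h2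
      have h4 : -2 * y ≤ 1 - (1 - y)⁻¹ := by
        have : 1 - (1 - y)⁻¹ = -y / (1 - y) := by
          field_simp
          ring
        rw [this, le_div_iff₀ h2]
        nlinarith
      calc exp (-2 * y) ≤ exp (log (1 - y)) := exp_le_exp.2 (h4.trans h3)
        _ = 1 - y := exp_log h2
    have hpow : exp (-L ^ 2 / 2) ≤ (cos (s / 2) ^ 2) ^ n := by
      have e1 : exp (-L ^ 2 / 2) = (exp (-2 * y) ^ 2) ^ n := by
        rw [← exp_nat_mul, ← exp_nat_mul]
        congr 1
        rw [hy]
        push_cast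
        field_simp
        ring
      rw [e1]
      apply pow_le_pow_left₀ (by positivity)
      exact pow_le_pow_left₀ (exp_pos _).le (hexp.trans hcos) 2
    have hwal : √(n : ℝ) ≤ (wal n)⁻¹ := by
      rw [← one_div, le_div_iff₀ (wal_pos n)]
      have h2 := wal_sq_le n
      have h3 : (√(n : ℝ) * wal n) ^ 2 ≤ 1 := by
        rw [mul_pow, Real.sq_sqrt hn'.le]
        nlinarith [sq_nonneg (wal n)]
      have h4 : 0 ≤ √(n : ℝ) * wal n := mul_nonneg hsq.le (wal_pos n).le
      nlinarith
    calc (2 * π)⁻¹ * exp (-L ^ 2 / 2) * √(n : ℝ)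
        = (2 * π)⁻¹ * √(n : ℝ) * exp (-L ^ 2 / 2) := by ring
      _ ≤ (2 * π)⁻¹ * (wal n)⁻¹ * (cos (s / 2) ^ 2) ^ n := by
        apply mul_le_mul _ hpow (exp_pos _).le (by have := wal_pos n; positivity)
        exact mul_le_mul_of_nonneg_left hwal (by positivity)
  pos := (eventually_gt_atTop 0).mono fun n hn => by
    have hn' : (0:ℝ) < n := by exact_mod_cast hn
    positivity
  lim := by
    have h1 : Tendsto (fun n : ℕ => √(n : ℝ)) atTop atTop :=
      Real.tendsto_sqrt_atTop.comp tendsto_natCast_atTop_atTop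
    refine h1.inv_tendsto_atTop.congr fun n => ?_
    simp

end Pool.Agent.V11315.Haus
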