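import Pool.Agent.V11315.HausKer

/-!
# The operators as convolutions, and the passage from the upper limits
-/

open MeasureTheory Set Filter Topology Real
open scoped ENNReal Nat

namespace Pool.Agent.V11315.Haus

lemma ind_eq (K f : ℝ → ℝ) (x : ℝ) :
    ∫ s, f (x + s) * (Ioc (-π) π).indicator K s = ∫ s in (-π)..π, f (x + s) * K s := by
  have h : ∀ s, f (x + s) * (Ioc (-π) π).indicator K s =
      (Ioc (-π) π).indicator (fun s => f (x + s) * K s) s := by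
    intro s
    by_cases hs : s ∈ Ioc (-π) π
    · rw [indicator_of_mem hs, indicator_of_mem hs]
    · rw [indicator_of_notMem hs, indicator_of_notMem hs, mul_zero]
  simp only [h]
  rw [integral_indicator measurableSet_Ioc,
    ← intervalIntegral.integral_of_le (by linarith [pi_pos])]

lemma neg_eq (K f : ℝ → ℝ) (hK : ∀ t, K (-t) = K t) (x : ℝ) :
    ∫ t in (-π)..π, f (x - t) * K t = ∫ s in (-π)..π, f (x + s) * K s := by
  have h := intervalIntegral.integral_comp_neg (a := -π) (b := π) (fun t => f (x - t) * K t)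
  rw [neg_neg] at h
  rw [← h]
  congr 1
  funext s
  rw [hK, sub_neg_eq_add]

lemma opW_eq (n : ℕ) (f : ℝ → ℝ) (x : ℝ) :
    √((n : ℝ) / π) * ∫ t, f t * exp (-(n : ℝ) * (t - x) ^ 2) = ∫ s, f (x + s) * kW n s := by
  rw [shift_eq, ← integral_const_mul]
  congr 1
  funext t
  simp only [kW]
  ring

lemma opW_eq' (n : ℕ) (f : ℝ → ℝ) (x : ℝ) :
    √((n : ℝ) / π) * ∫ s, f (x + s) * exp (-(n : ℝ) * s ^ 2) = ∫ s, f (x + s) * kW n s := by
  rw [← integral_const_mul]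
  congr 1
  funext t
  simp only [kW]
  ring

lemma opP_eq' (ρ : ℝ) (f : ℝ → ℝ) (x : ℝ) :
    1 / (2 * π) * ∫ s in (-π)..π, f (x + s) * ((1 - ρ ^ 2) / (1 - 2 * ρ * cos s + ρ ^ 2)) =
      ∫ s, f (x + s) * kP ρ s := by
  unfold kP
  rw [ind_eq, ← intervalIntegral.integral_const_mul]
  congr 1
  funext t
  simp only [pois]
  ring

lemma opP_eq (ρ : ℝ) (f : ℝ → ℝ) (x : ℝ) :
    1 / (2 * π) * ∫ t in (-π)..π, f (x - t) * ((1 - ρ ^ 2) / (1 - 2 * ρ * cos t + ρ ^ 2)) =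
      ∫ s, f (x + s) * kP ρ s := by
  rw [neg_eq (fun t => (1 - ρ ^ 2) / (1 - 2 * ρ * cos t + ρ ^ 2)) f
    (fun t => by simp only [cos_neg]) x]
  exact opP_eq' ρ f x

lemma opV_eq' (n : ℕ) (f : ℝ → ℝ) (x : ℝ) :
    (n ! : ℝ) ^ 2 / ((2 * π) * ((2 * n)! : ℝ)) *
      ∫ s in (-π)..π, f (x + s) * (2 * cos (s / 2)) ^ (2 * n) = ∫ s, f (x + s) * kV n s := by
  unfold kV
  rw [ind_eq, ← intervalIntegral.integral_const_mul]
  congr 1
  funext t
  simp only [vp]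
  ring

lemma opV_eq (n : ℕ) (f : ℝ → ℝ) (x : ℝ) :
    (n ! : ℝ) ^ 2 / ((2 * π) * ((2 * n)! : ℝ)) *
      ∫ t in (-π)..π, f (x - t) * (2 * cos (t / 2)) ^ (2 * n) = ∫ s, f (x + s) * kV n s := by
  rw [neg_eq (fun t => (2 * cos (t / 2)) ^ (2 * n)) f
    (fun t => by simp only [neg_div, cos_neg]) x]
  exact opV_eq' n f x

/-- from the finite upper limit to the rate -/
lemma rate_of_limsup {ι : Type*} {l : Filter ι} {a δ : ι → ℝ} {b : ℝ} (hb : 0 < b)
    (hab : ∀ᶠ i in l, 0 < a i ∧ a i * δ i = b) {r : ι → ℝ≥0∞}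
    (h : limsup (fun i => ENNReal.ofReal (a i) * r i) l < ⊤) :
    ∃ C : ℝ, 0 < C ∧ ∀ᶠ i in l, r i < ENNReal.ofReal (C * δ i) := by
  obtain ⟨c, hc1, hc2⟩ := exists_between h
  have hcpos : 0 < c.toReal := ENNReal.toReal_pos (by
    rintro rfl
    exact not_lt_bot hc1) hc2.ne
  refine ⟨c.toReal / b, by positivity, ?_⟩
  filter_upwards [eventually_lt_of_limsup_lt hc1, hab] with i hi hab
  have ha : ENNReal.ofReal (a i) ≠ 0 := by
    rw [Ne, ENNReal.ofReal_eq_zero, not_le]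
    exact hab.1
  have h1 : r i < c / ENNReal.ofReal (a i) := by
    rw [ENNReal.lt_div_iff_mul_lt (Or.inl ha) (Or.inl ENNReal.ofReal_ne_top), mul_comm]
    exact hi
  have h2 : c / ENNReal.ofReal (a i) = ENNReal.ofReal (c.toReal / b * δ i) := by
    conv_lhs => rw [← ENNReal.ofReal_toReal hc2.ne]
    rw [← ENNReal.ofReal_div_of_pos hab.1]
    congr 1
    have : δ i = b / a i := by
      rw [eq_div_iff hab.1.ne', mul_comm]
      exact hab.2
    rw [this]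
    field_simp
  rw [← h2]
  exact h1

lemma sqrt_rate {α : ℝ} (hα : 0 < α) :
    ∀ᶠ n : ℕ in atTop, 0 < α * √(n : ℝ) ∧ α * √(n : ℝ) * (1 / √(n : ℝ)) = α := by
  filter_upwards [eventually_gt_atTop 0] with n hn
  have hn' : (0:ℝ) < n := by exact_mod_cast hn
  have : 0 < √(n : ℝ) := Real.sqrt_pos.2 hn'
  refine ⟨by positivity, ?_⟩
  field_simp

lemma lin_rate {α : ℝ} (hα : 0 < α) :
    ∀ᶠ ρ : ℝ in 𝓝[<] 1, 0 < α / (1 - ρ) ∧ α / (1 - ρ) * (1 - ρ) = α := by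
  filter_upwards [good_mem] with ρ hρ
  have : 0 < 1 - ρ := by linarith [hρ.2]
  refine ⟨by positivity, ?_⟩
  field_simp

end Pool.Agent.V11315.Haus
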