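import Mathlib

set_option autoImplicit false

open Set

namespace Pool.Agent.V11315.NoPeriodicPoints

/-- The shift action of `ℤ²` on configurations: `(shift g x) h = x (h + g)`. -/
def shift {A : Type} (g : ℤ × ℤ) (x : ℤ × ℤ → A) : ℤ × ℤ → A := fun h => x (h + g)

/-- A subshift over `ℤ²`: a closed, shift-invariant set of configurations (the product topology
of the discrete topologies). -/
def IsSubshift {A : Type} (X : Set (ℤ × ℤ → A)) : Prop :=
  @IsClosed _ (@Pi.topologicalSpace (ℤ × ℤ) (fun _ => A) (fun _ => ⊥)) X ∧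
    ∀ g : ℤ × ℤ, shift g '' X = X

/-- Strong irreducibility. -/
def StronglyIrreducible {A : Type} (X : Set (ℤ × ℤ → A)) : Prop :=
  ∃ Δ : Finset (ℤ × ℤ), ∀ Ω₁ Ω₂ : Finset (ℤ × ℤ), (∀ w ∈ Ω₁, ∀ d ∈ Δ, w + d ∉ Ω₂) →
    ∀ x₁ ∈ X, ∀ x₂ ∈ X, ∃ x ∈ X, (∀ w ∈ Ω₁, x w = x₁ w) ∧ (∀ w ∈ Ω₂, x w = x₂ w)

/-- A configuration is periodic if its shift orbit is finite. -/
def Periodic {A : Type} (x : ℤ × ℤ → A) : Prop := (range fun g : ℤ × ℤ => shift g x).Finite

/-! ### The subshift -/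

/-- `x` is the divergence of a flow bounded by `1/2`, plus `√2`. -/
def Flow (x : ℤ × ℤ → Fin 4) (f g : ℤ → ℤ → ℝ) : Prop :=
  (∀ i j, |f i j| ≤ 1 / 2) ∧ (∀ i j, |g i j| ≤ 1 / 2) ∧
    ∀ i j, f i j - f (i - 1) j + (g i j - g i (j - 1)) = ((x (i, j) : ℕ) : ℝ) - √2

def X₀ : Set (ℤ × ℤ → Fin 4) := {x | ∃ f g : ℤ → ℤ → ℝ, Flow x f g}

lemma sqrt_two_bounds : (1 : ℝ) < √2 ∧ √2 < 2 := by
  constructor
  · rw [Real.lt_sqrt (by norm_num)]; norm_num
  · rw [Real.sqrt_lt' (by norm_num)]; norm_num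

/-- A flow bounded by `1/2` whose divergence is `-√2` modulo `1` gives a configuration. -/
lemma exists_conf (f g : ℤ → ℤ → ℝ) (hf : ∀ i j, |f i j| ≤ 1 / 2) (hg : ∀ i j, |g i j| ≤ 1 / 2)
    (h : ∀ i j, ∃ n : ℤ, f i j - f (i - 1) j + (g i j - g i (j - 1)) + √2 = n) :
    ∃ x : ℤ × ℤ → Fin 4, Flow x f g := by
  choose n hn using h
  have hb : ∀ i j, 0 ≤ n i j ∧ n i j < 4 := by
    intro i j
    obtain ⟨h1, h2⟩ := sqrt_two_bounds
    have a1 := abs_le.1 (hf i j)
    have a2 := abs_le.1 (hf (i - 1) j)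
    have a3 := abs_le.1 (hg i j)
    have a4 := abs_le.1 (hg i (j - 1))
    have e := hn i j
    constructor
    · have : (-1 : ℝ) < (n i j : ℝ) := by rw [← e]; linarith
      have : (-1 : ℤ) < n i j := by exact_mod_cast this
      omega
    · have : (n i j : ℝ) < 4 := by rw [← e]; linarith
      exact_mod_cast this
  refine ⟨fun p => ⟨(n p.1 p.2).toNat, by have := hb p.1 p.2; omega⟩, hf, hg, ?_⟩
  intro i j
  have e := hn i j
  have h0 := (hb i j).1
  have h1 : (((n i j).toNat : ℕ) : ℝ) = (n i j : ℝ) := by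
    have : (((n i j).toNat : ℕ) : ℤ) = n i j := Int.toNat_of_nonneg h0
    exact_mod_cast this
  show _ = (((n i j).toNat : ℕ) : ℝ) - √2
  rw [h1, ← e]
  ring

lemma nonempty : X₀.Nonempty := by
  obtain ⟨x, hx⟩ := exists_conf (fun i _ => (-√2 * i) - round (-√2 * i)) (fun _ _ => 0)
    (fun i j => abs_sub_round _) (fun i j => by norm_num) (by
      intro i j
      refine ⟨round (-√2 * ((i - 1 : ℤ) : ℝ)) - round (-√2 * (i : ℝ)), ?_⟩
      push_cast
      ring)
  exact ⟨x, _, _, hx⟩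

lemma shift_mem {x : ℤ × ℤ → Fin 4} (hx : x ∈ X₀) (v : ℤ × ℤ) : shift v x ∈ X₀ := by
  obtain ⟨f, g, hf, hg, h⟩ := hx
  refine ⟨fun i j => f (i + v.1) (j + v.2), fun i j => g (i + v.1) (j + v.2),
    fun i j => hf _ _, fun i j => hg _ _, ?_⟩
  intro i j
  have e := h (i + v.1) (j + v.2)
  have e1 : i + v.1 - 1 = i - 1 + v.1 := by ring
  have e2 : j + v.2 - 1 = j - 1 + v.2 := by ring
  rw [e1, e2] at e
  exact e

lemma isClosed_X₀ :
    @IsClosed _ (@Pi.topologicalSpace (ℤ × ℤ) (fun _ => Fin 4) (fun _ => ⊥)) X₀ := by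
  change IsClosed X₀
  obtain ⟨K, hK⟩ : ∃ K : Set ((ℤ × ℤ → Fin 4) × (ℤ → ℤ → ℝ) × (ℤ → ℤ → ℝ)),
    K = {q | Flow q.1 q.2.1 q.2.2} := ⟨_, rfl⟩
  obtain ⟨B, hB⟩ : ∃ B : Set (ℤ → ℤ → ℝ),
    B = Set.pi univ (fun _ : ℤ => Set.pi univ (fun _ : ℤ => Icc (-(1 / 2) : ℝ) (1 / 2))) :=
    ⟨_, rfl⟩
  have hBc : IsCompact B := by
    rw [hB]
    exact isCompact_univ_pi fun _ => isCompact_univ_pi fun _ => isCompact_Icc
  have hcpt : IsCompact ((univ : Set (ℤ × ℤ → Fin 4)) ×ˢ (B ×ˢ B)) :=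
    isCompact_univ.prod (hBc.prod hBc)
  have hsub : K ⊆ (univ : Set (ℤ × ℤ → Fin 4)) ×ˢ (B ×ˢ B) := by
    rintro ⟨x, f, g⟩ hq
    rw [hK] at hq
    obtain ⟨hf, hg, -⟩ := hq
    rw [hB]
    refine ⟨trivial, ?_, ?_⟩
    · intro i _ j _
      exact abs_le.1 (hf i j)
    · intro i _ j _
      exact abs_le.1 (hg i j)
  have hclosed : IsClosed K := by
    have hf : ∀ i j : ℤ, Continuous
        (fun q : (ℤ × ℤ → Fin 4) × (ℤ → ℤ → ℝ) × (ℤ → ℤ → ℝ) => q.2.1 i j) := by
      intro i j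
      fun_prop
    have hg : ∀ i j : ℤ, Continuous
        (fun q : (ℤ × ℤ → Fin 4) × (ℤ → ℤ → ℝ) × (ℤ → ℤ → ℝ) => q.2.2 i j) := by
      intro i j
      fun_prop
    have hx : ∀ i j : ℤ, Continuous
        (fun q : (ℤ × ℤ → Fin 4) × (ℤ → ℤ → ℝ) × (ℤ → ℤ → ℝ) => (((q.1 (i, j) : Fin 4) : ℕ) : ℝ)) := by
      intro i j
      have h1 : Continuous (fun a : Fin 4 => ((a : ℕ) : ℝ)) := continuous_of_discreteTopology
      exact h1.comp ((continuous_apply (i, j)).comp continuous_fst)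
    have : K = (⋂ i : ℤ, ⋂ j : ℤ, {q | |q.2.1 i j| ≤ 1 / 2}) ∩
        ((⋂ i : ℤ, ⋂ j : ℤ, {q | |q.2.2 i j| ≤ 1 / 2}) ∩
        (⋂ i : ℤ, ⋂ j : ℤ, {q | q.2.1 i j - q.2.1 (i - 1) j + (q.2.2 i j - q.2.2 i (j - 1)) =
          (((q.1 (i, j) : Fin 4) : ℕ) : ℝ) - √2})) := by
      rw [hK]
      ext q
      simp only [Flow, mem_ofPred_eq, mem_inter_iff, mem_iInter]
    rw [this]
    refine IsClosed.inter ?_ (IsClosed.inter ?_ ?_)
    · exact isClosed_iInter fun i => isClosed_iInter fun j =>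
        isClosed_le (hf i j).abs continuous_const
    · exact isClosed_iInter fun i => isClosed_iInter fun j =>
        isClosed_le (hg i j).abs continuous_const
    · exact isClosed_iInter fun i => isClosed_iInter fun j =>
        isClosed_eq (((hf i j).sub (hf (i - 1) j)).add ((hg i j).sub (hg i (j - 1))))
          ((hx i j).sub continuous_const)
  have hKc : IsCompact K := hcpt.of_isClosed_subset hclosed hsub
  have himg : X₀ = Prod.fst '' K := by
    ext x
    constructor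
    · rintro ⟨f, g, h⟩
      exact ⟨(x, f, g), by rw [hK]; exact h, rfl⟩
    · rintro ⟨⟨y, f, g⟩, hq, rfl⟩
      rw [hK] at hq
      exact ⟨f, g, hq⟩
  rw [himg]
  exact (hKc.image continuous_fst).isClosed

/-! ### No periodic points -/

lemma sum_periodic (u : ℕ → ℝ) (p : ℕ) (hu : ∀ i, u (i + p) = u i) (N : ℕ) :
    ∑ i ∈ Finset.range (N * p), u i = N * ∑ i ∈ Finset.range p, u i := by
  induction N with
  | zero => simp
  | succ N ih =>
    have h1 : ∀ k i, u (k * p + i) = u i := by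
      intro k i
      induction k with
      | zero => simp
      | succ k ihk =>
        rw [← ihk, ← hu (k * p + i)]
        congr 1
        ring
    rw [Nat.succ_mul, Finset.sum_range_add, ih, Finset.sum_congr rfl (fun i _ => h1 N i)]
    push_cast
    ring

lemma telescope (u : ℤ → ℝ) (n : ℕ) :
    ∑ i ∈ Finset.range n, (u (i : ℤ) - u ((i : ℤ) - 1)) = u ((n : ℤ) - 1) - u (-1) := by
  induction n with
  | zero => simp
  | succ n ih =>
    rw [Finset.sum_range_succ, ih]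
    push_cast
    have : ((n : ℤ) + 1 - 1) = (n : ℤ) := by ring
    rw [this]
    ring

lemma not_periodic {x : ℤ × ℤ → Fin 4} (hx : x ∈ X₀) : ¬ Periodic x := by
  intro hfin
  obtain ⟨f, g, hf, hg, h⟩ := hx
  have key : ∀ e : ℤ × ℤ, ∃ p : ℕ, 0 < p ∧ ∀ w, x (w + (p : ℤ) • e) = x w := by
    intro e
    have hni : ¬ Function.Injective (fun n : ℕ => shift ((n : ℤ) • e) x) := by
      intro hinj
      refine Set.infinite_range_of_injective hinj (hfin.subset ?_)
      rintro _ ⟨n, rfl⟩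
      exact ⟨(n : ℤ) • e, rfl⟩
    rw [Function.Injective] at hni
    push Not at hni
    obtain ⟨n, m, hnm, hne⟩ := hni
    have aux : ∀ n m : ℕ, n < m → shift ((n : ℤ) • e) x = shift ((m : ℤ) • e) x →
        ∃ p : ℕ, 0 < p ∧ ∀ w, x (w + (p : ℤ) • e) = x w := by
      intro n m hlt heq
      refine ⟨m - n, by omega, fun w => ?_⟩
      have h1 := congrFun heq (w - (n : ℤ) • e)
      simp only [shift] at h1
      have e1 : w - (n : ℤ) • e + (n : ℤ) • e = w := by abel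
      have e2 : w - (n : ℤ) • e + (m : ℤ) • e = w + ((m - n : ℕ) : ℤ) • e := by
        rw [Nat.cast_sub hlt.le, sub_smul]
        abel
      rw [e1, e2] at h1
      exact h1.symm
    rcases lt_or_gt_of_ne hne with hlt | hlt
    · exact aux n m hlt hnm
    · exact aux m n hlt hnm.symm
  obtain ⟨p, hp, hpx⟩ := key (1, 0)
  obtain ⟨q, hq, hqx⟩ := key (0, 1)
  obtain ⟨S, hS⟩ : ∃ S : ℕ, S = ∑ i ∈ Finset.range p, ∑ j ∈ Finset.range q,
    ((x ((i : ℤ), (j : ℤ)) : Fin 4) : ℕ) := ⟨_, rfl⟩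
  have hbox : ∀ N : ℕ, ∑ i ∈ Finset.range (N * p), ∑ j ∈ Finset.range (N * q),
      (((x ((i : ℤ), (j : ℤ)) : Fin 4) : ℕ) : ℝ) = N * (N * (S : ℝ)) := by
    intro N
    have hj : ∀ i : ℕ, ∑ j ∈ Finset.range (N * q), (((x ((i : ℤ), (j : ℤ)) : Fin 4) : ℕ) : ℝ) =
        N * ∑ j ∈ Finset.range q, (((x ((i : ℤ), (j : ℤ)) : Fin 4) : ℕ) : ℝ) := by
      intro i
      refine sum_periodic (fun j : ℕ => (((x ((i : ℤ), (j : ℤ)) : Fin 4) : ℕ) : ℝ)) q ?_ N
      intro j
      have := hqx ((i : ℤ), (j : ℤ))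
      simp only [Prod.smul_mk, Prod.mk_add_mk, smul_eq_mul, mul_zero, mul_one, add_zero] at this
      show (((x ((i : ℤ), ((j + q : ℕ) : ℤ)) : Fin 4) : ℕ) : ℝ) = _
      rw [Nat.cast_add, this]
    rw [Finset.sum_congr rfl (fun i _ => hj i), ← Finset.mul_sum]
    rw [sum_periodic (fun i : ℕ => ∑ j ∈ Finset.range q,
      (((x ((i : ℤ), (j : ℤ)) : Fin 4) : ℕ) : ℝ)) p ?_ N]
    · rw [hS]
      push_cast
      rfl
    · intro i
      refine Finset.sum_congr rfl fun j _ => ?_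
      have := hpx ((i : ℤ), (j : ℤ))
      simp only [Prod.smul_mk, Prod.mk_add_mk, smul_eq_mul, mul_zero, mul_one, add_zero] at this
      show (((x (((i + p : ℕ) : ℤ), (j : ℤ)) : Fin 4) : ℕ) : ℝ) = _
      rw [Nat.cast_add, this]
  have hflow : ∀ P Q : ℕ, |∑ i ∈ Finset.range P, ∑ j ∈ Finset.range Q,
      (((x ((i : ℤ), (j : ℤ)) : Fin 4) : ℕ) : ℝ) - √2 * (P * Q)| ≤ P + Q := by
    intro P Q
    have e1 : ∑ i ∈ Finset.range P, ∑ j ∈ Finset.range Q,
        (((x ((i : ℤ), (j : ℤ)) : Fin 4) : ℕ) : ℝ) - √2 * (P * Q) =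
        ∑ j ∈ Finset.range Q, (f ((P : ℤ) - 1) j - f (-1) j) +
        ∑ i ∈ Finset.range P, (g i ((Q : ℤ) - 1) - g i (-1)) := by
      have a1 : ∑ j ∈ Finset.range Q, (f ((P : ℤ) - 1) j - f (-1) j) =
          ∑ i ∈ Finset.range P, ∑ j ∈ Finset.range Q, (f i j - f ((i : ℤ) - 1) j) := by
        rw [Finset.sum_comm]
        refine Finset.sum_congr rfl fun j _ => ?_
        exact (telescope (fun i => f i j) P).symm
      have a2 : ∑ i ∈ Finset.range P, (g i ((Q : ℤ) - 1) - g i (-1)) =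
          ∑ i ∈ Finset.range P, ∑ j ∈ Finset.range Q, (g i j - g i ((j : ℤ) - 1)) := by
        refine Finset.sum_congr rfl fun i _ => ?_
        exact (telescope (fun j => g i j) Q).symm
      rw [a1, a2, ← Finset.sum_add_distrib]
      have a3 : √2 * ((P : ℝ) * Q) = ∑ i ∈ Finset.range P, ∑ j ∈ Finset.range Q, √2 := by
        simp only [Finset.sum_const, Finset.card_range, nsmul_eq_mul]
        ring
      rw [a3, ← Finset.sum_sub_distrib]
      refine Finset.sum_congr rfl fun i _ => ?_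
      rw [← Finset.sum_sub_distrib, ← Finset.sum_add_distrib]
      refine Finset.sum_congr rfl fun j _ => ?_
      exact (h i j).symm
    rw [e1]
    have b1 : |∑ j ∈ Finset.range Q, (f ((P : ℤ) - 1) j - f (-1) j)| ≤ Q := by
      refine (Finset.abs_sum_le_sum_abs _ _).trans ?_
      have : ∀ j ∈ Finset.range Q, |f ((P : ℤ) - 1) j - f (-1) j| ≤ 1 := by
        intro j _
        have c1 := abs_le.1 (hf ((P : ℤ) - 1) j)
        have c2 := abs_le.1 (hf (-1) j)
        rw [abs_le]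
        constructor <;> linarith
      refine (Finset.sum_le_sum this).trans ?_
      simp
    have b2 : |∑ i ∈ Finset.range P, (g i ((Q : ℤ) - 1) - g i (-1))| ≤ P := by
      refine (Finset.abs_sum_le_sum_abs _ _).trans ?_
      have : ∀ i ∈ Finset.range P, |g i ((Q : ℤ) - 1) - g i (-1)| ≤ 1 := by
        intro i _
        have c1 := abs_le.1 (hg i ((Q : ℤ) - 1))
        have c2 := abs_le.1 (hg i (-1))
        rw [abs_le]
        constructor <;> linarith
      refine (Finset.sum_le_sum this).trans ?_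
      simp
    have b3 := (abs_add_le (∑ j ∈ Finset.range Q, (f ((P : ℤ) - 1) j - f (-1) j))
      (∑ i ∈ Finset.range P, (g i ((Q : ℤ) - 1) - g i (-1))))
    linarith
  -- hence `√2 = S / (p q)`
  have hmain : ∀ N : ℕ, 0 < N → |(S : ℝ) - √2 * (p * q)| * N ≤ p + q := by
    intro N hN
    have h1 := hflow (N * p) (N * q)
    rw [hbox N] at h1
    have hNr : (0 : ℝ) < N := by exact_mod_cast hN
    have e2 : (N : ℝ) * (N * (S : ℝ)) - √2 * (((N * p : ℕ) : ℝ) * ((N * q : ℕ) : ℝ)) =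
        N * (N * ((S : ℝ) - √2 * (p * q))) := by
      push_cast
      ring
    rw [e2, abs_mul, abs_mul, abs_of_pos hNr] at h1
    push_cast at h1
    have h2 : (N : ℝ) * (|(S : ℝ) - √2 * (p * q)| * N) ≤ N * (p + q) := by linarith
    exact le_of_mul_le_mul_left h2 hNr
  have hzero : (S : ℝ) - √2 * (p * q) = 0 := by
    by_contra hne
    have hpos : 0 < |(S : ℝ) - √2 * (p * q)| := abs_pos.2 hne
    obtain ⟨N, hN⟩ := exists_nat_gt (((p : ℝ) + q) / |(S : ℝ) - √2 * (p * q)|)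
    have hN' : ((p : ℝ) + q) < N * |(S : ℝ) - √2 * (p * q)| := by
      rwa [div_lt_iff₀ hpos] at hN
    have hpq : (0 : ℝ) ≤ (p : ℝ) + q := by positivity
    have hNpos : 0 < N := by
      rcases Nat.eq_zero_or_pos N with h0 | h0
      · exfalso
        rw [h0] at hN'
        simp at hN'
        linarith
      · exact h0
    have := hmain N hNpos
    linarith
  have hirr := irrational_sqrt_two
  apply hirr
  refine ⟨(S : ℚ) / (p * q), ?_⟩
  have hpr : (0 : ℝ) < p := by exact_mod_cast hp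
  have hqr : (0 : ℝ) < q := by exact_mod_cast hq
  push_cast
  rw [div_eq_iff (by positivity)]
  linarith

/-! ### Gluing -/

lemma prim (φ : ℤ → ℝ) (c : ℝ) : ∃ H : ℤ → ℝ, H 0 = c ∧ ∀ j, H j - H (j - 1) = φ j := by
  refine ⟨fun j => match j with
    | Int.ofNat n => c + ∑ k ∈ Finset.range n, φ ((k : ℤ) + 1)
    | Int.negSucc n => c - ∑ k ∈ Finset.range (n + 1), φ (-(k : ℤ)), by simp, ?_⟩
  intro j
  match j with
  | Int.ofNat 0 =>
    have : (Int.ofNat 0 - 1 : ℤ) = Int.negSucc 0 := rfl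
    rw [this]
    simp
  | Int.ofNat (n + 1) =>
    have : (Int.ofNat (n + 1) - 1 : ℤ) = Int.ofNat n := by
      simp
    rw [this]
    show c + ∑ k ∈ Finset.range (n + 1), φ ((k : ℤ) + 1) -
      (c + ∑ k ∈ Finset.range n, φ ((k : ℤ) + 1)) = _
    rw [Finset.sum_range_succ]
    simp
  | Int.negSucc n =>
    have : (Int.negSucc n - 1 : ℤ) = Int.negSucc (n + 1) := by
      rw [Int.negSucc_eq, Int.negSucc_eq]
      push_cast
      ring
    rw [this]
    show c - ∑ k ∈ Finset.range (n + 1), φ (-(k : ℤ)) -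
      (c - ∑ k ∈ Finset.range (n + 1 + 1), φ (-(k : ℤ))) = _
    rw [Finset.sum_range_succ _ (n + 1), Int.negSucc_eq]
    push_cast
    ring

/-- The height function: a flow with integral divergence is, modulo `1`, a curl. -/
lemma height (f g : ℤ → ℤ → ℝ)
    (h : ∀ i j, ∃ n : ℤ, f i j - f (i - 1) j + (g i j - g i (j - 1)) = n) :
    ∃ k : ℤ → ℤ → ℝ, (∀ i j, k i j - k i (j - 1) = f i j) ∧
      ∀ i j, ∃ n : ℤ, g i j + (k i j - k (i - 1) j) = n := by
  obtain ⟨B, -, hB⟩ := prim (fun i => - g i 0) 0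
  choose k hk0 hk using fun i : ℤ => prim (f i) (B i)
  refine ⟨k, fun i j => hk i j, ?_⟩
  intro i j
  have hstep : ∀ j : ℤ, (g i j + (k i j - k (i - 1) j)) -
      (g i (j - 1) + (k i (j - 1) - k (i - 1) (j - 1))) =
      f i j - f (i - 1) j + (g i j - g i (j - 1)) := by
    intro j
    have h1 := hk i j
    have h2 := hk (i - 1) j
    linarith
  have h0 : g i 0 + (k i 0 - k (i - 1) 0) = 0 := by
    rw [hk0, hk0]
    have := hB i
    linarith
  induction j using Int.induction_on with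
  | zero => exact ⟨0, by rw [h0]; simp⟩
  | succ m ih =>
    obtain ⟨n, hn⟩ := ih
    obtain ⟨n', hn'⟩ := h i ((m : ℤ) + 1)
    have := hstep ((m : ℤ) + 1)
    rw [hn'] at this
    have e : (m : ℤ) + 1 - 1 = m := by ring
    rw [e, hn] at this
    exact ⟨n + n', by push_cast; linarith⟩
  | pred m ih =>
    obtain ⟨n, hn⟩ := ih
    obtain ⟨n', hn'⟩ := h i (-(m : ℤ))
    have := hstep (-(m : ℤ))
    rw [hn', hn] at this
    exact ⟨n - n', by push_cast; linarith⟩

lemma glue : StronglyIrreducible X₀ := by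
  classical
  refine ⟨Finset.Icc (-1) 1 ×ˢ Finset.Icc (-1) 1, ?_⟩
  intro Ω₁ Ω₂ hΩ x₁ hx₁ x₂ hx₂
  obtain ⟨f₁, g₁, hf₁, hg₁, h₁⟩ := hx₁
  obtain ⟨f₂, g₂, hf₂, hg₂, h₂⟩ := hx₂
  obtain ⟨k, hk1, hk2⟩ := height (fun i j => f₁ i j - f₂ i j) (fun i j => g₁ i j - g₂ i j) (by
    intro i j
    refine ⟨((x₁ (i, j) : ℕ) : ℤ) - ((x₂ (i, j) : ℕ) : ℤ), ?_⟩
    have e1 := h₁ i j
    have e2 := h₂ i j
    push_cast
    linarith)
  -- the plaquettes which touch `Ω₁`
  obtain ⟨T, hT⟩ : ∃ T : ℤ → ℤ → Prop, T = fun i j =>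
    (i, j) ∈ Ω₁ ∨ (i + 1, j) ∈ Ω₁ ∨ (i, j + 1) ∈ Ω₁ ∨ (i + 1, j + 1) ∈ Ω₁ := ⟨_, rfl⟩
  obtain ⟨m, hm⟩ : ∃ m : ℤ → ℤ → ℝ, m = fun i j => if T i j then k i j else 0 := ⟨_, rfl⟩
  have hm1 : ∀ i j, T i j → m i j = k i j := by
    intro i j h; rw [hm]; simp [h]
  have hm0 : ∀ i j, ¬ T i j → m i j = 0 := by
    intro i j h; rw [hm]; simp [h]
  have hfar : ∀ v ∈ Ω₁, ∀ w ∈ Ω₂, -1 ≤ w.1 - v.1 → w.1 - v.1 ≤ 1 → -1 ≤ w.2 - v.2 →
      w.2 - v.2 ≤ 1 → False := by
    intro v hv w hw a b c d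
    refine hΩ v hv (w - v) ?_ ?_
    · simp only [Finset.mem_product, Finset.mem_Icc, Prod.fst_sub, Prod.snd_sub]
      exact ⟨⟨a, b⟩, c, d⟩
    · rw [add_sub_cancel]
      exact hw
  -- plaquettes which touch `Ω₂` do not touch `Ω₁`
  have hT2 : ∀ i j, ((i, j) ∈ Ω₂ ∨ (i + 1, j) ∈ Ω₂ ∨ (i, j + 1) ∈ Ω₂ ∨ (i + 1, j + 1) ∈ Ω₂) →
      ¬ T i j := by
    intro i j hw hv
    rw [hT] at hv
    rcases hv with hv | hv | hv | hv <;> rcases hw with hw | hw | hw | hw <;>
      exact hfar _ hv _ hw (by simp) (by simp) (by simp) (by simp)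
  -- the horizontal edges
  have hF : ∀ i j, ∃ s : ℝ, |s| ≤ 1 / 2 ∧
      (∃ n : ℤ, s = f₂ i j + (m i j - m i (j - 1)) + n) ∧
      (((i, j) ∈ Ω₁ ∨ (i + 1, j) ∈ Ω₁) → s = f₁ i j) ∧
      (((i, j) ∈ Ω₂ ∨ (i + 1, j) ∈ Ω₂) → s = f₂ i j) := by
    intro i j
    by_cases c1 : (i, j) ∈ Ω₁ ∨ (i + 1, j) ∈ Ω₁
    · refine ⟨f₁ i j, hf₁ i j, ⟨0, ?_⟩, fun _ => rfl, ?_⟩
      · have t1 : T i j := by
          rw [hT]
          rcases c1 with c | c
          · exact Or.inl c
          · exact Or.inr (Or.inl c)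
        have t2 : T i (j - 1) := by
          rw [hT]
          have e : j - 1 + 1 = j := by ring
          rcases c1 with c | c
          · exact Or.inr (Or.inr (Or.inl (by rw [e]; exact c)))
          · exact Or.inr (Or.inr (Or.inr (by rw [e]; exact c)))
        rw [hm1 _ _ t1, hm1 _ _ t2, hk1]
        push_cast
        ring
      · intro c2
        exfalso
        rcases c1 with hv | hv <;> rcases c2 with hw | hw <;>
          exact hfar _ hv _ hw (by simp) (by simp) (by simp) (by simp)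
    · by_cases c2 : (i, j) ∈ Ω₂ ∨ (i + 1, j) ∈ Ω₂
      · refine ⟨f₂ i j, hf₂ i j, ⟨0, ?_⟩, fun c => absurd c c1, fun _ => rfl⟩
        have t1 : ¬ T i j := by
          apply hT2
          rcases c2 with c | c
          · exact Or.inl c
          · exact Or.inr (Or.inl c)
        have t2 : ¬ T i (j - 1) := by
          apply hT2
          have e : j - 1 + 1 = j := by ring
          rcases c2 with c | c
          · exact Or.inr (Or.inr (Or.inl (by rw [e]; exact c)))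
          · exact Or.inr (Or.inr (Or.inr (by rw [e]; exact c)))
        rw [hm0 _ _ t1, hm0 _ _ t2]
        push_cast
        ring
      · refine ⟨_, abs_sub_round (f₂ i j + (m i j - m i (j - 1))),
          ⟨-round (f₂ i j + (m i j - m i (j - 1))), ?_⟩, fun c => absurd c c1,
          fun c => absurd c c2⟩
        push_cast
        ring
  -- the vertical edges
  have hG : ∀ i j, ∃ s : ℝ, |s| ≤ 1 / 2 ∧
      (∃ n : ℤ, s = g₂ i j - (m i j - m (i - 1) j) + n) ∧
      (((i, j) ∈ Ω₁ ∨ (i, j + 1) ∈ Ω₁) → s = g₁ i j) ∧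
      (((i, j) ∈ Ω₂ ∨ (i, j + 1) ∈ Ω₂) → s = g₂ i j) := by
    intro i j
    by_cases c1 : (i, j) ∈ Ω₁ ∨ (i, j + 1) ∈ Ω₁
    · obtain ⟨n, hn⟩ := hk2 i j
      refine ⟨g₁ i j, hg₁ i j, ⟨n, ?_⟩, fun _ => rfl, ?_⟩
      · have t1 : T i j := by
          rw [hT]
          rcases c1 with c | c
          · exact Or.inl c
          · exact Or.inr (Or.inr (Or.inl c))
        have t2 : T (i - 1) j := by
          rw [hT]
          have e : i - 1 + 1 = i := by ring
          rcases c1 with c | c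
          · exact Or.inr (Or.inl (by rw [e]; exact c))
          · exact Or.inr (Or.inr (Or.inr (by rw [e]; exact c)))
        rw [hm1 _ _ t1, hm1 _ _ t2]
        linarith
      · intro c2
        exfalso
        rcases c1 with hv | hv <;> rcases c2 with hw | hw <;>
          exact hfar _ hv _ hw (by simp) (by simp) (by simp) (by simp)
    · by_cases c2 : (i, j) ∈ Ω₂ ∨ (i, j + 1) ∈ Ω₂
      · refine ⟨g₂ i j, hg₂ i j, ⟨0, ?_⟩, fun c => absurd c c1, fun _ => rfl⟩
        have t1 : ¬ T i j := by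
          apply hT2
          rcases c2 with c | c
          · exact Or.inl c
          · exact Or.inr (Or.inr (Or.inl c))
        have t2 : ¬ T (i - 1) j := by
          apply hT2
          have e : i - 1 + 1 = i := by ring
          rcases c2 with c | c
          · exact Or.inr (Or.inl (by rw [e]; exact c))
          · exact Or.inr (Or.inr (Or.inr (by rw [e]; exact c)))
        rw [hm0 _ _ t1, hm0 _ _ t2]
        push_cast
        ring
      · refine ⟨_, abs_sub_round (g₂ i j - (m i j - m (i - 1) j)),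
          ⟨-round (g₂ i j - (m i j - m (i - 1) j)), ?_⟩, fun c => absurd c c1,
          fun c => absurd c c2⟩
        push_cast
        ring
  choose F hF1 hF2 hF3 hF4 using hF
  choose G hG1 hG2 hG3 hG4 using hG
  choose nF hnF using hF2
  choose nG hnG using hG2
  obtain ⟨x, hxF, hxG, hx⟩ := exists_conf F G hF1 hG1 (by
    intro i j
    refine ⟨((x₂ (i, j) : ℕ) : ℤ) + nF i j - nF (i - 1) j + nG i j - nG i (j - 1), ?_⟩
    have e := h₂ i j
    rw [hnF i j, hnF (i - 1) j, hnG i j, hnG i (j - 1)]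
    push_cast
    linarith)
  refine ⟨x, ⟨F, G, hxF, hxG, hx⟩, ?_, ?_⟩
  · rintro ⟨i, j⟩ hw
    have e := hx i j
    have e1 := h₁ i j
    have a1 : F i j = f₁ i j := hF3 i j (Or.inl hw)
    have a2 : F (i - 1) j = f₁ (i - 1) j := hF3 (i - 1) j (Or.inr (by
      have : i - 1 + 1 = i := by ring
      rw [this]; exact hw))
    have a3 : G i j = g₁ i j := hG3 i j (Or.inl hw)
    have a4 : G i (j - 1) = g₁ i (j - 1) := hG3 i (j - 1) (Or.inr (by
      have : j - 1 + 1 = j := by ring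
      rw [this]; exact hw))
    rw [a1, a2, a3, a4, e1] at e
    have : ((x₁ (i, j) : ℕ) : ℝ) = ((x (i, j) : ℕ) : ℝ) := by linarith
    have : (x₁ (i, j) : ℕ) = (x (i, j) : ℕ) := by exact_mod_cast this
    exact (Fin.ext this).symm
  · rintro ⟨i, j⟩ hw
    have e := hx i j
    have e1 := h₂ i j
    have a1 : F i j = f₂ i j := hF4 i j (Or.inl hw)
    have a2 : F (i - 1) j = f₂ (i - 1) j := hF4 (i - 1) j (Or.inr (by
      have : i - 1 + 1 = i := by ring
      rw [this]; exact hw))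
    have a3 : G i j = g₂ i j := hG4 i j (Or.inl hw)
    have a4 : G i (j - 1) = g₂ i (j - 1) := hG4 i (j - 1) (Or.inr (by
      have : j - 1 + 1 = j := by ring
      rw [this]; exact hw))
    rw [a1, a2, a3, a4, e1] at e
    have : ((x₂ (i, j) : ℕ) : ℝ) = ((x (i, j) : ℕ) : ℝ) := by linarith
    have : (x₂ (i, j) : ℕ) = (x (i, j) : ℕ) := by exact_mod_cast this
    exact (Fin.ext this).symm

/-- There is a nonempty strongly irreducible subshift over `ℤ²`, over an alphabet with four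
letters, which has no periodic configuration at all. -/
theorem result : ∃ X : Set (ℤ × ℤ → Fin 4), X.Nonempty ∧ IsSubshift X ∧ StronglyIrreducible X ∧
    ∀ x ∈ X, ¬ Periodic x := by
  refine ⟨X₀, nonempty, ⟨isClosed_X₀, ?_⟩, glue, fun x hx => not_periodic hx⟩
  intro v
  apply Set.Subset.antisymm
  · rintro _ ⟨x, hx, rfl⟩
    exact shift_mem hx v
  · intro x hx
    refine ⟨shift (-v) x, shift_mem hx (-v), ?_⟩
    funext w
    simp [shift]

end Pool.Agent.V11315.NoPeriodicPoints
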