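import Mathlib

/-!
# Averages over finite types
-/

set_option autoImplicit false

namespace Pool.Agent.V11315.SS

open Finset

/-- average over a finite type -/
noncomputable def avg {α : Type*} [Fintype α] (f : α → ℝ) : ℝ := (∑ a, f a) / Fintype.card α

section avg

variable {α β γ : Type*} [Fintype α] [Fintype β] [Fintype γ]

theorem avg_mono {f g : α → ℝ} (h : ∀ a, f a ≤ g a) : avg f ≤ avg g := by
  unfold avg
  gcongr with a _
  exact h a

theorem avg_nonneg {f : α → ℝ} (h : ∀ a, 0 ≤ f a) : 0 ≤ avg f := by
  unfold avg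
  have := Finset.sum_nonneg (fun a (_ : a ∈ univ) => h a)
  positivity

theorem avg_const [Nonempty α] (c : ℝ) : avg (fun _ : α => c) = c := by
  unfold avg
  have : (Fintype.card α : ℝ) ≠ 0 := by
    exact_mod_cast Fintype.card_ne_zero
  rw [Finset.sum_const, Finset.card_univ, nsmul_eq_mul]
  field_simp

theorem avg_add (f g : α → ℝ) : avg (fun a => f a + g a) = avg f + avg g := by
  unfold avg
  rw [Finset.sum_add_distrib, add_div]

theorem avg_sub (f g : α → ℝ) : avg (fun a => f a - g a) = avg f - avg g := by
  unfold avg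
  rw [Finset.sum_sub_distrib, sub_div]

theorem avg_mul_left (c : ℝ) (f : α → ℝ) : avg (fun a => c * f a) = c * avg f := by
  unfold avg
  rw [← Finset.mul_sum, mul_div_assoc]

theorem avg_sum {κ : Type*} (s : Finset κ) (f : κ → α → ℝ) :
    avg (fun a => ∑ k ∈ s, f k a) = ∑ k ∈ s, avg (f k) := by
  unfold avg
  rw [Finset.sum_comm, Finset.sum_div]

theorem avg_equiv (e : α ≃ β) (f : β → ℝ) : avg (fun a => f (e a)) = avg f := by
  unfold avg
  rw [Equiv.sum_comp e f, Fintype.card_congr e]

theorem avg_prod (f : α × β → ℝ) : avg f = avg (fun a => avg (fun b => f (a, b))) := by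
  unfold avg
  rw [Fintype.sum_prod_type, Fintype.card_prod, Nat.cast_mul, ← Finset.sum_div, div_div, mul_comm]

theorem avg_prod' (f : α × β → ℝ) : avg f = avg (fun b => avg (fun a => f (a, b))) := by
  unfold avg
  rw [Fintype.sum_prod_type_right, Fintype.card_prod, Nat.cast_mul, ← Finset.sum_div, div_div]

/-- averages over a part of the coordinates -/
theorem avg_comp_inj {κ κ' : Type*} [Fintype κ] [Fintype κ'] [DecidableEq κ] [DecidableEq κ'] [Nonempty β]
    (e : κ → κ') (he : Function.Injective e) (F : (κ → β) → ℝ) :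
    avg (fun g : κ' → β => F (g ∘ e)) = avg F := by
  classical
  let p : κ' → Prop := fun x => x ∈ Set.range e
  let E := Equiv.piEquivPiSubtypeProd p (fun _ => β)
  let E2 : (κ → β) ≃ ({x // p x} → β) := Equiv.arrowCongr (Equiv.ofInjective e he) (Equiv.refl β)
  have h1 : ∀ g : κ' → β, F (g ∘ e) = F (E2.symm (E g).1) := by
    intro g
    congr 1
  simp_rw [h1]
  rw [avg_equiv E (fun u : ({x // p x} → β) × ({x // ¬ p x} → β) => F (E2.symm u.1)), avg_prod]
  simp only [avg_const]
  rw [avg_equiv E2.symm F]

/-- independence of the coordinates -/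
theorem avg_pi {κ : Type*} [Fintype κ] [DecidableEq κ] (g : κ → β → ℝ) :
    avg (fun f : κ → β => ∏ i, g i (f i)) = ∏ i, avg (g i) := by
  unfold avg
  rw [Finset.prod_div_distrib, Finset.prod_univ_sum, Fintype.piFinset_univ, Fintype.card_fun,
    Finset.prod_const, Finset.card_univ]
  push_cast
  rfl

theorem avg_pi_pow {κ : Type*} [Fintype κ] [DecidableEq κ] (g : β → ℝ) :
    avg (fun f : κ → β => ∏ i, g (f i)) = avg g ^ Fintype.card κ := by
  rw [avg_pi (fun _ => g), Finset.prod_const, Finset.card_univ]

end avg

/-- probability with respect to the uniform distribution on a finite type -/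
noncomputable def prob {α : Type*} [Fintype α] (E : α → Prop) : ℝ :=
  open Classical in ((univ.filter E).card : ℝ) / Fintype.card α

section prob

variable {α : Type*} [Fintype α]

theorem prob_eq (E : α → Prop) [DecidablePred E] : prob E = avg (fun a => if E a then (1 : ℝ) else 0) := by
  classical
  unfold prob avg
  congr 1
  rw [Finset.sum_boole]
  have : ∀ (i1 i2 : DecidablePred E), (@Finset.filter α E i1 univ).card = (@Finset.filter α E i2 univ).card := by
    intro i1 i2
    apply congrArg
    ext x
    simp only [mem_filter]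
  exact congrArg (fun n : ℕ => (n : ℝ)) (this _ _)

theorem prob_mono {E F : α → Prop} (h : ∀ a, E a → F a) : prob E ≤ prob F := by
  classical
  unfold prob
  have : (univ.filter E).card ≤ (univ.filter F).card := by
    apply Finset.card_le_card
    intro a ha
    simp only [mem_filter, mem_univ, true_and] at ha ⊢
    exact h a ha
  gcongr

theorem prob_nonneg (E : α → Prop) : 0 ≤ prob E := by
  unfold prob
  positivity

theorem prob_or_le (E F : α → Prop) : prob (fun a => E a ∨ F a) ≤ prob E + prob F := by
  classical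
  rw [prob_eq, prob_eq, prob_eq, ← avg_add]
  apply avg_mono
  intro a
  by_cases h1 : E a <;> by_cases h2 : F a <;> simp [h1, h2]

theorem prob_exists_le {κ : Type*} [Fintype κ] (E : κ → α → Prop) :
    prob (fun a => ∃ k, E k a) ≤ ∑ k, prob (E k) := by
  classical
  have : ∀ k, prob (E k) = avg (fun a => if E k a then (1 : ℝ) else 0) := fun k => prob_eq _
  simp_rw [this]
  rw [prob_eq, ← avg_sum]
  apply avg_mono
  intro a
  by_cases h : ∃ k, E k a
  · obtain ⟨k, hk⟩ := h
    rw [if_pos ⟨k, hk⟩]
    calc (1 : ℝ) = (if E k a then 1 else 0) := by rw [if_pos hk]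
      _ ≤ _ := Finset.single_le_sum (f := fun k => if E k a then (1 : ℝ) else 0)
          (fun i _ => by positivity) (mem_univ k)
  · rw [if_neg h]
    positivity

theorem prob_equiv {β : Type*} [Fintype β] (e : α ≃ β) (Q : β → Prop) :
    prob (fun a => Q (e a)) = prob Q := by
  classical
  rw [prob_eq, prob_eq, avg_equiv e (fun b => if Q b then (1 : ℝ) else 0)]

theorem prob_prod_le {β : Type*} [Fintype β] [Nonempty β] (Q : α × β → Prop) (c : ℝ)
    (h : ∀ b, prob (fun a => Q (a, b)) ≤ c) : prob Q ≤ c := by
  classical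
  rw [prob_eq, avg_prod']
  calc avg (fun b => avg (fun a => if Q (a, b) then (1 : ℝ) else 0)) ≤ avg (fun _ : β => c) := by
        apply avg_mono
        intro b
        rw [← prob_eq]
        exact h b
    _ = c := avg_const c

/-- Markov's inequality -/
theorem markov (f : α → ℝ) (hf : ∀ a, 0 ≤ f a) {t : ℝ} (ht : 0 < t) :
    prob (fun a => t ≤ f a) ≤ avg f / t := by
  classical
  rw [prob_eq, le_div_iff₀ ht, mul_comm, ← avg_mul_left]
  apply avg_mono
  intro a
  by_cases h : t ≤ f a
  · simp [h]
  · simp [h, hf a]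

end prob

end Pool.Agent.V11315.SS
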