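import Pool.Agent.V11315.SS1

/-!
# Occupancy: the second moment
-/

set_option autoImplicit false

namespace Pool.Agent.V11315.SS

open Finset

/-- indicator of the event that the value `c` is taken by `v` -/
noncomputable def hit {m b : ℕ} (c : Fin b) (v : Fin m → Fin b) : ℝ :=
  open Classical in if ∃ u, v u = c then 1 else 0

theorem hit_nonneg {m b : ℕ} (c : Fin b) (v : Fin m → Fin b) : 0 ≤ hit c v := by
  unfold hit; positivity

theorem hit_le_one {m b : ℕ} (c : Fin b) (v : Fin m → Fin b) : hit c v ≤ 1 := by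
  unfold hit; split_ifs <;> norm_num

theorem hit_sq {m b : ℕ} (c : Fin b) (v : Fin m → Fin b) : hit c v * hit c v = hit c v := by
  unfold hit; split_ifs <;> norm_num

theorem one_sub_hit {m b : ℕ} (c : Fin b) (v : Fin m → Fin b) :
    1 - hit c v = ∏ u, (if v u = c then (0 : ℝ) else 1) := by
  classical
  unfold hit
  by_cases h : ∃ u, v u = c
  · obtain ⟨u, hu⟩ := h
    rw [if_pos ⟨u, hu⟩, sub_self]
    symm
    apply Finset.prod_eq_zero (mem_univ u)
    rw [if_pos hu]
  · rw [if_neg h]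
    push Not at h
    rw [Finset.prod_eq_one]
    · norm_num
    · intro u _
      rw [if_neg (h u)]

theorem avg_ne {b : ℕ} (hb : 1 ≤ b) (c : Fin b) :
    avg (fun x : Fin b => if x = c then (0 : ℝ) else 1) = 1 - 1 / b := by
  have : (b : ℝ) ≠ 0 := by positivity
  unfold avg
  have h : ∀ x : Fin b, (if x = c then (0 : ℝ) else 1) = 1 - (if x = c then (1 : ℝ) else 0) := by
    intro x; split_ifs <;> norm_num
  simp_rw [h]
  rw [Finset.sum_sub_distrib, Finset.sum_ite_eq']
  simp only [sum_const, card_univ, Fintype.card_fin, nsmul_eq_mul, mul_one, mem_univ, if_true]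
  field_simp

theorem avg_ne_ne {b : ℕ} (hb : 1 ≤ b) {c c' : Fin b} (hc : c ≠ c') :
    avg (fun x : Fin b => (if x = c then (0 : ℝ) else 1) * (if x = c' then (0 : ℝ) else 1)) = 1 - 2 / b := by
  have : (b : ℝ) ≠ 0 := by positivity
  unfold avg
  have h : ∀ x : Fin b, (if x = c then (0 : ℝ) else 1) * (if x = c' then (0 : ℝ) else 1) =
      1 - (if x = c then (1 : ℝ) else 0) - (if x = c' then (1 : ℝ) else 0) := by
    intro x
    by_cases h1 : x = c
    · have h2 : x ≠ c' := by rw [h1]; exact hc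
      simp [h1, hc]
    · simp [h1]
      split_ifs <;> norm_num
  simp_rw [h]
  rw [Finset.sum_sub_distrib, Finset.sum_sub_distrib, Finset.sum_ite_eq', Finset.sum_ite_eq']
  simp only [sum_const, card_univ, Fintype.card_fin, nsmul_eq_mul, mul_one, mem_univ, if_true]
  field_simp
  ring

/-- the probability that a value is taken -/
noncomputable def qq (m b : ℕ) : ℝ := 1 - (1 - 1 / (b : ℝ)) ^ m

theorem avg_hit {m b : ℕ} (hb : 1 ≤ b) (c : Fin b) : avg (fun v : Fin m → Fin b => hit c v) = qq m b := by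
  have : Nonempty (Fin b) := ⟨⟨0, hb⟩⟩
  have h : ∀ v : Fin m → Fin b, hit c v = 1 - ∏ u, (if v u = c then (0 : ℝ) else 1) := by
    intro v
    rw [← one_sub_hit]; ring
  simp_rw [h]
  rw [avg_sub, avg_const, avg_pi_pow (fun x : Fin b => if x = c then (0 : ℝ) else 1), avg_ne hb, Fintype.card_fin]
  rfl

theorem qq_nonneg {m b : ℕ} (hb : 1 ≤ b) : 0 ≤ qq m b := by
  have : (1 : ℝ) ≤ b := by exact_mod_cast hb
  have h1 : 1 / (b : ℝ) ≤ 1 := by rw [div_le_one (by positivity)]; exact this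
  have h2 : 0 < 1 / (b : ℝ) := by positivity
  unfold qq
  have := pow_le_one₀ (n := m) (by linarith : 0 ≤ 1 - 1 / (b : ℝ)) (by linarith)
  linarith

theorem qq_le_one {m b : ℕ} (hb : 1 ≤ b) : qq m b ≤ 1 := by
  have : (1 : ℝ) ≤ b := by exact_mod_cast hb
  have h1 : 1 / (b : ℝ) ≤ 1 := by rw [div_le_one (by positivity)]; exact this
  unfold qq
  have := pow_nonneg (by linarith : 0 ≤ 1 - 1 / (b : ℝ)) m
  linarith

theorem avg_hit_hit {m b : ℕ} (hb : 1 ≤ b) {c c' : Fin b} (hc : c ≠ c') :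
    avg (fun v : Fin m → Fin b => hit c v * hit c' v) ≤ qq m b ^ 2 := by
  have : Nonempty (Fin b) := ⟨⟨0, hb⟩⟩
  have hb2 : 2 ≤ b := by
    by_contra h
    have : b = 1 := by omega
    subst this
    exact hc (Subsingleton.elim _ _)
  have hb2' : (2 : ℝ) ≤ b := by exact_mod_cast hb2
  have h : ∀ v : Fin m → Fin b, hit c v * hit c' v = (hit c v + hit c' v - 1) +
      ∏ u, ((if v u = c then (0 : ℝ) else 1) * (if v u = c' then (0 : ℝ) else 1)) := by
    intro v
    rw [Finset.prod_mul_distrib, ← one_sub_hit, ← one_sub_hit]; ring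
  simp_rw [h]
  rw [avg_add, avg_sub, avg_add, avg_const, avg_hit hb, avg_hit hb,
    avg_pi_pow (fun x : Fin b => (if x = c then (0 : ℝ) else 1) * (if x = c' then (0 : ℝ) else 1)),
    avg_ne_ne hb hc, Fintype.card_fin]
  have h3 : (1 - 2 / (b : ℝ)) ^ m ≤ ((1 - 1 / (b : ℝ)) ^ m) ^ 2 := by
    rw [← pow_mul, mul_comm, pow_mul]
    apply pow_le_pow_left₀
    · have : 2 / (b : ℝ) ≤ 1 := by rw [div_le_one (by positivity)]; exact hb2'
      linarith
    · have : (1 - 1 / (b : ℝ)) ^ 2 = 1 - 2 / b + (1 / (b : ℝ)) ^ 2 := by ring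
      rw [this]
      have : 0 ≤ (1 / (b : ℝ)) ^ 2 := by positivity
      linarith
  unfold qq
  nlinarith [h3]

/-- number of the values which are taken by all the `f t` -/
noncomputable def XX {D m b : ℕ} (f : Fin D → Fin m → Fin b) : ℝ := ∑ c, ∏ t, hit c (f t)

theorem avg_XX {D m b : ℕ} (hb : 1 ≤ b) :
    avg (fun f : Fin D → Fin m → Fin b => XX f) = b * qq m b ^ D := by
  unfold XX
  rw [avg_sum]
  have : ∀ c : Fin b, avg (fun f : Fin D → Fin m → Fin b => ∏ t, hit c (f t)) = qq m b ^ D := by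
    intro c
    rw [avg_pi_pow (fun v : Fin m → Fin b => hit c v), avg_hit hb, Fintype.card_fin]
  simp_rw [this]
  simp

theorem avg_XX_sq {D m b : ℕ} (hb : 1 ≤ b) :
    avg (fun f : Fin D → Fin m → Fin b => XX f * XX f) ≤ b + b ^ 2 * (qq m b ^ D) ^ 2 := by
  unfold XX
  simp_rw [Finset.sum_mul_sum]
  rw [avg_sum]
  simp_rw [avg_sum, ← Finset.prod_mul_distrib]
  have h : ∀ c c' : Fin b, avg (fun f : Fin D → Fin m → Fin b => ∏ t, (hit c (f t) * hit c' (f t))) ≤
      (if c' = c then 1 else 0) + (qq m b ^ D) ^ 2 := by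
    intro c c'
    rw [avg_pi_pow (fun v : Fin m → Fin b => hit c v * hit c' v), Fintype.card_fin]
    by_cases hc : c' = c
    · subst hc
      simp only [if_true]
      have h1 : avg (fun v : Fin m → Fin b => hit c' v * hit c' v) = qq m b := by
        simp_rw [hit_sq]; exact avg_hit hb c'
      rw [h1]
      have := pow_le_one₀ (n := D) (qq_nonneg (m := m) hb) (qq_le_one hb)
      have h3 : 0 ≤ (qq m b ^ D) ^ 2 := by positivity
      linarith
    · rw [if_neg hc, zero_add, ← pow_mul, mul_comm, pow_mul]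
      apply pow_le_pow_left₀
      · apply avg_nonneg
        intro v
        exact mul_nonneg (hit_nonneg _ _) (hit_nonneg _ _)
      · exact avg_hit_hit hb (fun h => hc h.symm)
  calc ∑ c : Fin b, ∑ c' : Fin b, avg (fun f : Fin D → Fin m → Fin b => ∏ t, (hit c (f t) * hit c' (f t)))
      ≤ ∑ c : Fin b, ∑ c' : Fin b, ((if c' = c then (1 : ℝ) else 0) + (qq m b ^ D) ^ 2) :=
        Finset.sum_le_sum fun c _ => Finset.sum_le_sum fun c' _ => h c c'
    _ = b + b ^ 2 * (qq m b ^ D) ^ 2 := by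
        simp_rw [Finset.sum_add_distrib, Finset.sum_ite_eq']
        simp
        ring

theorem cheb {D m b : ℕ} (hb : 1 ≤ b) (hm : 1 ≤ m) :
    prob (fun f : Fin D → Fin m → Fin b => XX f ≤ b * qq m b ^ D / 2) ≤ 4 / (b * (qq m b ^ D) ^ 2) := by
  have hb' : (1 : ℝ) ≤ b := by exact_mod_cast hb
  have : Nonempty (Fin b) := ⟨⟨0, hb⟩⟩
  have hq : 0 < qq m b := by
    unfold qq
    have h1 : (1 - 1 / (b : ℝ)) ^ m ≤ 1 - 1 / (b : ℝ) := by
      apply pow_le_of_le_one
      · have : 1 / (b : ℝ) ≤ 1 := by rw [div_le_one (by positivity)]; exact hb'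
        linarith
      · have : 0 < 1 / (b : ℝ) := by positivity
        linarith
      · omega
    have : 0 < 1 / (b : ℝ) := by positivity
    linarith
  set μ : ℝ := b * qq m b ^ D with hμ
  have hμ0 : 0 < μ := by positivity
  have h1 : avg (fun f : Fin D → Fin m → Fin b => (XX f - μ) ^ 2) ≤ b := by
    have h2 : ∀ f : Fin D → Fin m → Fin b, (XX f - μ) ^ 2 = (XX f * XX f - (2 * μ) * XX f) + μ ^ 2 := by
      intro f; ring
    simp_rw [h2]
    rw [avg_add, avg_sub, avg_mul_left, avg_const, avg_XX hb]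
    have := avg_XX_sq (D := D) (m := m) hb
    have h3 : (b : ℝ) ^ 2 * (qq m b ^ D) ^ 2 = μ ^ 2 := by rw [hμ]; ring
    rw [h3] at this
    rw [← hμ]
    nlinarith [this]
  calc prob (fun f : Fin D → Fin m → Fin b => XX f ≤ μ / 2)
      ≤ prob (fun f : Fin D → Fin m → Fin b => (μ / 2) ^ 2 ≤ (XX f - μ) ^ 2) := by
        apply prob_mono
        intro f hf
        nlinarith
    _ ≤ avg (fun f : Fin D → Fin m → Fin b => (XX f - μ) ^ 2) / (μ / 2) ^ 2 :=
        markov _ (fun f => sq_nonneg _) (by positivity)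
    _ ≤ b / (μ / 2) ^ 2 := by gcongr
    _ = 4 / (b * (qq m b ^ D) ^ 2) := by
        rw [hμ]
        have : (b : ℝ) ≠ 0 := by positivity
        field_simp
        norm_num

end Pool.Agent.V11315.SS
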