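import Pool.Agent.V11315.SS2

/-!
# The structure: a row all of whose columns are heavy
-/

set_option autoImplicit false

namespace Pool.Agent.V11315.SS

open Finset

/-- helper rows -/
abbrev Hlp (ζ D m : ℕ) := Fin ζ × Fin D × Fin m

/-- all rows -/
abbrev Idx (ζ D m : ℕ) := Fin m ⊕ Hlp ζ D m

/-- heavy columns of the block `j` -/
noncomputable def HH {ζ D m b : ℕ} (sA : Hlp ζ D m → Fin ζ → Fin b) (j : Fin ζ) : Finset (Fin b) :=
  open Classical in univ.filter (fun c => ∀ t, ∃ u, sA (j, t, u) j = c)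

theorem mem_HH {ζ D m b : ℕ} (sA : Hlp ζ D m → Fin ζ → Fin b) (j : Fin ζ) (c : Fin b) :
    c ∈ HH sA j ↔ ∀ t, ∃ u, sA (j, t, u) j = c := by
  unfold HH; simp

theorem card_HH {ζ D m b : ℕ} (sA : Hlp ζ D m → Fin ζ → Fin b) (j : Fin ζ) :
    ((HH sA j).card : ℝ) = XX (fun t u => sA (j, t, u) j) := by
  classical
  unfold XX HH
  rw [Finset.card_filter, Nat.cast_sum]
  apply Finset.sum_congr rfl
  intro c _
  by_cases h : ∀ t, ∃ u, sA (j, t, u) j = c
  · rw [if_pos h, Finset.prod_eq_one]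
    · simp
    · intro t _
      unfold hit
      rw [if_pos (h t)]
  · rw [if_neg h]
    push Not at h
    obtain ⟨t, ht⟩ := h
    symm
    rw [Nat.cast_zero]
    apply Finset.prod_eq_zero (mem_univ t)
    unfold hit
    rw [if_neg]
    push Not
    exact ht

/-- there is no row all of whose columns are heavy -/
def NoGood {ζ D m b : ℕ} (s : Idx ζ D m → Fin ζ → Fin b) : Prop :=
  ∀ i : Fin m, ∃ j, s (Sum.inl i) j ∉ HH (fun a => s (Sum.inr a)) j

theorem avg_center {ζ D m b : ℕ} (hb : 1 ≤ b) (sA : Hlp ζ D m → Fin ζ → Fin b) {h : ℝ} (h0 : 0 ≤ h)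
    (hh : ∀ j, h * b ≤ (HH sA j).card) :
    prob (fun sB : Fin m → Fin ζ → Fin b => ∀ i, ∃ j, sB i j ∉ HH sA j) ≤ (1 - h ^ ζ) ^ m := by
  classical
  have hb' : (1 : ℝ) ≤ b := by exact_mod_cast hb
  have : Nonempty (Fin b) := ⟨⟨0, hb⟩⟩
  have h1 : ∀ sB : Fin m → Fin ζ → Fin b, (if ∀ i, ∃ j, sB i j ∉ HH sA j then (1 : ℝ) else 0) =
      ∏ i, (1 - ∏ j, (if sB i j ∈ HH sA j then (1 : ℝ) else 0)) := by
    intro sB
    by_cases hc : ∀ i, ∃ j, sB i j ∉ HH sA j
    · rw [if_pos hc, Finset.prod_eq_one]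
      intro i _
      obtain ⟨j, hj⟩ := hc i
      rw [Finset.prod_eq_zero (mem_univ j)]
      · norm_num
      · rw [if_neg hj]
    · rw [if_neg hc]
      push Not at hc
      obtain ⟨i, hi⟩ := hc
      symm
      apply Finset.prod_eq_zero (mem_univ i)
      rw [Finset.prod_eq_one]
      · norm_num
      · intro j _
        rw [if_pos (hi j)]
  rw [prob_eq]
  simp_rw [h1]
  rw [avg_pi_pow (fun row : Fin ζ → Fin b => 1 - ∏ j, (if row j ∈ HH sA j then (1 : ℝ) else 0)), Fintype.card_fin,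
    avg_sub, avg_const, avg_pi (fun j x => if x ∈ HH sA j then (1 : ℝ) else 0)]
  have h2 : ∀ j, avg (fun x : Fin b => if x ∈ HH sA j then (1 : ℝ) else 0) = (HH sA j).card / b := by
    intro j
    unfold avg
    rw [Finset.sum_boole]
    simp
  simp_rw [h2]
  have h3 : ∀ j, h ≤ ((HH sA j).card : ℝ) / b := by
    intro j
    rw [le_div_iff₀ (by positivity)]
    exact hh j
  have h4 : h ^ ζ ≤ ∏ j : Fin ζ, (((HH sA j).card : ℝ) / b) := by
    calc h ^ ζ = ∏ j : Fin ζ, h := by simp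
      _ ≤ _ := Finset.prod_le_prod (fun _ _ => h0) (fun j _ => h3 j)
  have h5 : ∏ j : Fin ζ, (((HH sA j).card : ℝ) / b) ≤ 1 := by
    apply Finset.prod_le_one
    · intro j _; positivity
    · intro j _
      rw [div_le_one (by positivity)]
      have := Finset.card_le_univ (HH sA j)
      rw [Fintype.card_fin] at this
      exact_mod_cast this
  apply pow_le_pow_left₀
  · linarith
  · linarith

theorem marg {ζ D m b : ℕ} (hb : 1 ≤ b) (j : Fin ζ) (F : (Fin D → Fin m → Fin b) → ℝ) :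
    avg (fun s : Idx ζ D m → Fin ζ → Fin b => F (fun t u => s (Sum.inr (j, t, u)) j)) = avg F := by
  have : Nonempty (Fin b) := ⟨⟨0, hb⟩⟩
  let e1 : (Idx ζ D m → Fin ζ → Fin b) ≃ (Idx ζ D m × Fin ζ → Fin b) := (Equiv.curry _ _ _).symm
  let e2 : (Fin D × Fin m → Fin b) ≃ (Fin D → Fin m → Fin b) := Equiv.curry _ _ _
  let G : (Fin D × Fin m → Fin b) → ℝ := fun h => F (e2 h)
  let e : Fin D × Fin m → Idx ζ D m × Fin ζ := fun p => (Sum.inr (j, p.1, p.2), j)
  have he : Function.Injective e := by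
    intro p q h
    simp only [e, Prod.mk.injEq, Sum.inr.injEq, true_and, and_true] at h
    exact Prod.ext h.1 h.2
  have h1 : ∀ s : Idx ζ D m → Fin ζ → Fin b, F (fun t u => s (Sum.inr (j, t, u)) j) = G ((e1 s) ∘ e) := by
    intro s; rfl
  simp_rw [h1]
  rw [avg_equiv e1 (fun g => G (g ∘ e)), avg_comp_inj e he G]
  exact avg_equiv e2 F

theorem prob_noGood {ζ D m b : ℕ} (hb : 1 ≤ b) (hm : 1 ≤ m) :
    prob (fun s : Idx ζ D m → Fin ζ → Fin b => NoGood s) ≤
      ζ * (4 / (b * (qq m b ^ D) ^ 2)) + (1 - (qq m b ^ D / 2) ^ ζ) ^ m := by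
  classical
  have hb' : (1 : ℝ) ≤ b := by exact_mod_cast hb
  have : Nonempty (Fin b) := ⟨⟨0, hb⟩⟩
  set μ : ℝ := b * qq m b ^ D with hμ
  have hq0 : 0 ≤ qq m b := qq_nonneg hb
  have h1 : prob (fun s : Idx ζ D m → Fin ζ → Fin b => NoGood s) ≤
      prob (fun s : Idx ζ D m → Fin ζ → Fin b => ∃ j, XX (fun t u => s (Sum.inr (j, t, u)) j) ≤ μ / 2) +
      prob (fun s : Idx ζ D m → Fin ζ → Fin b => NoGood s ∧ ∀ j, μ / 2 < XX (fun t u => s (Sum.inr (j, t, u)) j)) := by
    refine le_trans (prob_mono ?_) (prob_or_le _ _)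
    intro s hs
    by_cases hc : ∃ j, XX (fun t u => s (Sum.inr (j, t, u)) j) ≤ μ / 2
    · exact Or.inl hc
    · push Not at hc
      exact Or.inr ⟨hs, hc⟩
  have h2 : prob (fun s : Idx ζ D m → Fin ζ → Fin b => ∃ j, XX (fun t u => s (Sum.inr (j, t, u)) j) ≤ μ / 2) ≤
      ζ * (4 / (b * (qq m b ^ D) ^ 2)) := by
    refine le_trans (prob_exists_le _) ?_
    calc ∑ j : Fin ζ, prob (fun s : Idx ζ D m → Fin ζ → Fin b => XX (fun t u => s (Sum.inr (j, t, u)) j) ≤ μ / 2)
        ≤ ∑ j : Fin ζ, (4 / (b * (qq m b ^ D) ^ 2)) := by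
          apply Finset.sum_le_sum
          intro j _
          have := cheb (D := D) (m := m) hb hm
          rw [prob_eq] at this ⊢
          rw [marg hb j (fun f => if XX f ≤ μ / 2 then (1 : ℝ) else 0)]
          exact this
      _ = _ := by simp
  have h3 : prob (fun s : Idx ζ D m → Fin ζ → Fin b => NoGood s ∧
      ∀ j, μ / 2 < XX (fun t u => s (Sum.inr (j, t, u)) j)) ≤ (1 - (qq m b ^ D / 2) ^ ζ) ^ m := by
    let E : (Idx ζ D m → Fin ζ → Fin b) ≃ (Fin m → Fin ζ → Fin b) × (Hlp ζ D m → Fin ζ → Fin b) :=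
      Equiv.sumArrowEquivProdArrow _ _ _
    let Q : (Fin m → Fin ζ → Fin b) × (Hlp ζ D m → Fin ζ → Fin b) → Prop := fun p =>
      (∀ i, ∃ j, p.1 i j ∉ HH p.2 j) ∧ ∀ j, μ / 2 < XX (fun t u => p.2 (j, t, u) j)
    have hE : prob (fun s : Idx ζ D m → Fin ζ → Fin b => NoGood s ∧
      ∀ j, μ / 2 < XX (fun t u => s (Sum.inr (j, t, u)) j)) = prob (fun s => Q (E s)) := rfl
    rw [hE, prob_equiv E Q]
    apply prob_prod_le
    intro sA
    have hq1 : qq m b ^ D / 2 ≤ 1 := by
      have := pow_le_one₀ (n := D) hq0 (qq_le_one (m := m) hb)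
      linarith
    by_cases hc : ∀ j, μ / 2 < XX (fun t u => sA (j, t, u) j)
    · have := avg_center (m := m) hb sA (h := qq m b ^ D / 2) (by positivity) (by
        intro j
        rw [card_HH]
        have := hc j
        rw [hμ] at this
        linarith)
      refine le_trans (prob_mono ?_) this
      intro sB h6
      exact h6.1
    · have h6 : prob (fun sB : Fin m → Fin ζ → Fin b => Q (sB, sA)) ≤
          prob (fun _ : Fin m → Fin ζ → Fin b => False) := by
        apply prob_mono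
        intro sB h
        exact hc h.2
      have h7 : prob (fun _ : Fin m → Fin ζ → Fin b => False) = 0 := by
        rw [prob_eq]
        simp [avg]
      have h8 : 0 ≤ (1 - (qq m b ^ D / 2) ^ ζ) ^ m := by
        apply pow_nonneg
        have := pow_le_one₀ (n := ζ) (by positivity : 0 ≤ qq m b ^ D / 2) hq1
        linarith
      linarith
  linarith

end Pool.Agent.V11315.SS
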