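import Pool.Agent.V11315.SS3

/-!
# The energy of the test vector
-/

set_option autoImplicit false

namespace Pool.Agent.V11315.SS

open Finset Matrix

/-- the sign of a bit -/
def sgn (t : Bool) : ℝ := if t then 1 else -1

theorem sgn_mul_self (t : Bool) : sgn t * sgn t = 1 := by cases t <;> simp [sgn]

theorem sgn_not (t : Bool) : sgn (!t) = - sgn t := by cases t <;> simp [sgn]

/-- SparseStack matrix with the positions `s` and the signs `ρ` -/
noncomputable def stack {I : Type*} {ζ b : ℕ} (s : I → Fin ζ → Fin b) (ρ : I → Fin ζ → Bool) :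
    Matrix I (Fin ζ × Fin b) ℝ :=
  fun i c => if s i c.1 = c.2 then sgn (ρ i c.1) / √ζ else 0

/-- squared norm of the image -/
noncomputable def energy {I : Type*} [Fintype I] {ζ b : ℕ} (s : I → Fin ζ → Fin b) (ρ : I → Fin ζ → Bool)
    (x : I → ℝ) : ℝ := ∑ c, ((stack s ρ)ᵀ *ᵥ x) c ^ 2

theorem energy_eq {I : Type*} [Fintype I] {ζ b : ℕ} (s : I → Fin ζ → Fin b) (ρ : I → Fin ζ → Bool)
    (x : I → ℝ) : energy s ρ x =
      (∑ j : Fin ζ, ∑ c : Fin b, (∑ i, (if s i j = c then sgn (ρ i j) else 0) * x i) ^ 2) / ζ := by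
  unfold energy
  rw [Fintype.sum_prod_type, Finset.sum_div]
  apply Finset.sum_congr rfl
  intro j _
  rw [Finset.sum_div]
  apply Finset.sum_congr rfl
  intro c _
  have h1 : ((stack s ρ)ᵀ *ᵥ x) (j, c) = (∑ i, (if s i j = c then sgn (ρ i j) else 0) * x i) / √ζ := by
    rw [Matrix.mulVec, dotProduct, Finset.sum_div]
    apply Finset.sum_congr rfl
    intro i _
    simp only [stack, Matrix.transpose_apply]
    split_ifs
    · ring
    · simp
  rw [h1, div_pow, Real.sq_sqrt (by positivity)]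

section

variable {ζ D m b : ℕ}

/-- test vector -/
noncomputable def xv (i0 : Fin m) (U : Fin ζ → Fin D → Fin m) (ρ : Idx ζ D m → Fin ζ → Bool) :
    Idx ζ D m → ℝ :=
  Sum.elim (fun i => if i = i0 then 1 else 0)
    (fun a => if a.2.2 = U a.1 a.2.1 then -(sgn (ρ (Sum.inl i0) a.1) * sgn (ρ (Sum.inr a) a.1)) / D else 0)

/-- chosen helper row -/
def ar (U : Fin ζ → Fin D → Fin m) (p : Fin ζ × Fin D) : Idx ζ D m := Sum.inr (p.1, p.2, U p.1 p.2)

/-- contribution of the chosen helper rows to the columns of the other blocks -/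
noncomputable def zz (s : Idx ζ D m → Fin ζ → Fin b) (i0 : Fin m) (U : Fin ζ → Fin D → Fin m) (j' : Fin ζ) (c : Fin b)
    (p : Fin ζ × Fin D) (ρ : Idx ζ D m → Fin ζ → Bool) : ℝ :=
  if p.1 = j' then 0 else (if s (ar U p) j' = c then sgn (ρ (ar U p) j') else 0) *
    (-(sgn (ρ (Sum.inl i0) p.1) * sgn (ρ (ar U p) p.1)) / D)

theorem colsum (hD : 1 ≤ D) (s : Idx ζ D m → Fin ζ → Fin b) (i0 : Fin m) (U : Fin ζ → Fin D → Fin m)
    (hU : ∀ j t, s (Sum.inr (j, t, U j t)) j = s (Sum.inl i0) j) (j' : Fin ζ) (c : Fin b)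
    (ρ : Idx ζ D m → Fin ζ → Bool) :
    ∑ i, (if s i j' = c then sgn (ρ i j') else 0) * xv i0 U ρ i = ∑ p, zz s i0 U j' c p ρ := by
  have hD' : (D : ℝ) ≠ 0 := by positivity
  rw [Fintype.sum_sum_type]
  have h1 : ∑ i : Fin m, (if s (Sum.inl i) j' = c then sgn (ρ (Sum.inl i) j') else 0) * xv i0 U ρ (Sum.inl i) =
      (if s (Sum.inl i0) j' = c then sgn (ρ (Sum.inl i0) j') else 0) := by
    simp only [xv, Sum.elim_inl, mul_ite, mul_one, mul_zero]
    rw [Finset.sum_ite_eq']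
    simp
  let w : Fin ζ × Fin D → ℝ := fun p => (if s (ar U p) j' = c then sgn (ρ (ar U p) j') else 0) *
    (-(sgn (ρ (Sum.inl i0) p.1) * sgn (ρ (ar U p) p.1)) / D)
  have h2 : ∑ a : Hlp ζ D m, (if s (Sum.inr a) j' = c then sgn (ρ (Sum.inr a) j') else 0) * xv i0 U ρ (Sum.inr a) =
      ∑ p, w p := by
    rw [Fintype.sum_prod_type, Fintype.sum_prod_type]
    apply Finset.sum_congr rfl
    intro j _
    rw [Fintype.sum_prod_type]
    apply Finset.sum_congr rfl
    intro t _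
    rw [Finset.sum_eq_single (U j t)]
    · simp only [xv, Sum.elim_inr, if_true]
      rfl
    · intro u _ hu
      simp [xv, hu]
    · intro h; exact absurd (mem_univ _) h
  rw [h1, h2]
  have h3 : ∀ p, w p = zz s i0 U j' c p ρ + (if p.1 = j' then w p else 0) := by
    intro p
    unfold zz
    by_cases hp : p.1 = j'
    · rw [if_pos hp, if_pos hp, zero_add]
    · rw [if_neg hp, if_neg hp, add_zero]
  have h4 : ∑ p, (if p.1 = j' then w p else 0) =
      -(if s (Sum.inl i0) j' = c then sgn (ρ (Sum.inl i0) j') else 0) := by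
    rw [Fintype.sum_prod_type, Finset.sum_eq_single j']
    · have h5 : ∀ t : Fin D, (if (j', t).1 = j' then w (j', t) else 0) =
          -(if s (Sum.inl i0) j' = c then sgn (ρ (Sum.inl i0) j') else 0) / D := by
        intro t
        have hU' : s (ar U (j', t)) j' = s (Sum.inl i0) j' := hU j' t
        simp only [if_true, w]
        by_cases hc : s (Sum.inl i0) j' = c
        · have hc' : s (ar U (j', t)) j' = c := hU'.trans hc
          rw [if_pos hc, if_pos hc']
          have := sgn_mul_self (ρ (ar U (j', t)) j')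
          field_simp
          linear_combination (-sgn (ρ (Sum.inl i0) j')) * this
        · have hc' : ¬ s (ar U (j', t)) j' = c := fun h => hc (hU'.symm.trans h)
          rw [if_neg hc, if_neg hc']; simp
      rw [Finset.sum_congr rfl (fun t _ => h5 t), Finset.sum_const, Finset.card_univ, Fintype.card_fin,
        nsmul_eq_mul]
      field_simp
    · intro j _ hj
      apply Finset.sum_eq_zero
      intro t _
      rw [if_neg hj]
    · intro h; exact absurd (mem_univ _) h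
  rw [Finset.sum_congr rfl (fun p _ => h3 p), Finset.sum_add_distrib, h4]
  ring

/-- flip one sign -/
def flip (i : Idx ζ D m) (j : Fin ζ) (ρ : Idx ζ D m → Fin ζ → Bool) : Idx ζ D m → Fin ζ → Bool :=
  fun k l => if k = i ∧ l = j then !(ρ k l) else ρ k l

theorem flip_flip (i : Idx ζ D m) (j : Fin ζ) : Function.Involutive (flip (ζ := ζ) i j) := by
  intro ρ
  funext k l
  unfold flip
  by_cases h : k = i ∧ l = j
  · simp [h]
  · simp [h]

theorem cross (s : Idx ζ D m → Fin ζ → Fin b) (i0 : Fin m) (U : Fin ζ → Fin D → Fin m) (j' : Fin ζ) (c : Fin b)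
    (p q : Fin ζ × Fin D) (hpq : p ≠ q) : avg (fun ρ => zz s i0 U j' c p ρ * zz s i0 U j' c q ρ) = 0 := by
  by_cases hp : p.1 = j'
  · have : ∀ ρ, zz s i0 U j' c p ρ * zz s i0 U j' c q ρ = 0 := by
      intro ρ; unfold zz; rw [if_pos hp, zero_mul]
    simp_rw [this]
    exact avg_const 0
  by_cases hq : q.1 = j'
  · have : ∀ ρ, zz s i0 U j' c p ρ * zz s i0 U j' c q ρ = 0 := by
      intro ρ; unfold zz; rw [if_pos hq, mul_zero]
    simp_rw [this]
    exact avg_const 0
  have hne : ar U q ≠ ar U p := by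
    intro h
    unfold ar at h
    simp only [Sum.inr.injEq, Prod.mk.injEq] at h
    exact hpq (Prod.ext h.1.symm h.2.1.symm)
  have h0 : (Sum.inl i0 : Idx ζ D m) ≠ ar U p := by
    unfold ar; simp
  have h1 : ∀ ρ, zz s i0 U j' c p (flip (ar U p) j' ρ) = - zz s i0 U j' c p ρ := by
    intro ρ
    unfold zz
    rw [if_neg hp, if_neg hp]
    have e1 : flip (ar U p) j' ρ (ar U p) j' = !(ρ (ar U p) j') := by unfold flip; simp
    have e2 : flip (ar U p) j' ρ (Sum.inl i0) p.1 = ρ (Sum.inl i0) p.1 := by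
      unfold flip; rw [if_neg]; exact fun h => h0 h.1
    have e3 : flip (ar U p) j' ρ (ar U p) p.1 = ρ (ar U p) p.1 := by
      unfold flip; rw [if_neg]; exact fun h => hp h.2
    rw [e1, e2, e3, sgn_not]
    split_ifs <;> ring
  have h2 : ∀ ρ, zz s i0 U j' c q (flip (ar U p) j' ρ) = zz s i0 U j' c q ρ := by
    intro ρ
    unfold zz
    have e1 : flip (ar U p) j' ρ (ar U q) j' = (ρ (ar U q) j') := by
      unfold flip; rw [if_neg]; exact fun h => hne h.1
    have e2 : flip (ar U p) j' ρ (Sum.inl i0) q.1 = ρ (Sum.inl i0) q.1 := by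
      unfold flip; rw [if_neg]; exact fun h => h0 h.1
    have e3 : flip (ar U p) j' ρ (ar U q) q.1 = ρ (ar U q) q.1 := by
      unfold flip; rw [if_neg]; exact fun h => hne h.1
    rw [e1, e2, e3]
  have h3 := avg_equiv (Function.Involutive.toPerm _ (flip_flip (ar U p) j')) (fun ρ => zz s i0 U j' c p ρ * zz s i0 U j' c q ρ)
  have h4 : avg (fun ρ => (fun ρ => zz s i0 U j' c p ρ * zz s i0 U j' c q ρ) ((Function.Involutive.toPerm _ (flip_flip (ar U p) j')) ρ)) =
      - avg (fun ρ => zz s i0 U j' c p ρ * zz s i0 U j' c q ρ) := by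
    rw [← neg_one_mul, ← avg_mul_left]
    congr 1
    funext ρ
    simp only [Function.Involutive.coe_toPerm]
    rw [h1, h2]
    ring
  linarith

theorem zz_sq (s : Idx ζ D m → Fin ζ → Fin b) (i0 : Fin m) (U : Fin ζ → Fin D → Fin m) (j' : Fin ζ)
    (c : Fin b) (p : Fin ζ × Fin D) (ρ : Idx ζ D m → Fin ζ → Bool) :
    zz s i0 U j' c p ρ * zz s i0 U j' c p ρ ≤ (if s (ar U p) j' = c then 1 else 0) / (D : ℝ) ^ 2 := by
  unfold zz
  by_cases hp : p.1 = j'
  · rw [if_pos hp, zero_mul]; positivity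
  · rw [if_neg hp]
    by_cases hc : s (ar U p) j' = c
    · rw [if_pos hc, if_pos hc]
      apply le_of_eq
      have e1 := sgn_mul_self (ρ (ar U p) j')
      have e2 := sgn_mul_self (ρ (ar U p) p.1)
      have e3 := sgn_mul_self (ρ (Sum.inl i0) p.1)
      calc sgn (ρ (ar U p) j') * (-(sgn (ρ (Sum.inl i0) p.1) * sgn (ρ (ar U p) p.1)) / D) *
            (sgn (ρ (ar U p) j') * (-(sgn (ρ (Sum.inl i0) p.1) * sgn (ρ (ar U p) p.1)) / D))
          = (sgn (ρ (ar U p) j') * sgn (ρ (ar U p) j')) * (sgn (ρ (Sum.inl i0) p.1) * sgn (ρ (Sum.inl i0) p.1)) *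
              (sgn (ρ (ar U p) p.1) * sgn (ρ (ar U p) p.1)) / (D : ℝ) ^ 2 := by ring
        _ = _ := by rw [e1, e2, e3]; ring
    · rw [if_neg hc, if_neg hc]; simp

theorem avg_energy (hζ : 1 ≤ ζ) (hD : 1 ≤ D) (s : Idx ζ D m → Fin ζ → Fin b) (i0 : Fin m) (U : Fin ζ → Fin D → Fin m)
    (hU : ∀ j t, s (Sum.inr (j, t, U j t)) j = s (Sum.inl i0) j) :
    avg (fun ρ => energy s ρ (xv i0 U ρ)) ≤ ζ / D := by
  have hD' : (0 : ℝ) < D := by exact_mod_cast hD
  have hζ' : (0 : ℝ) < ζ := by exact_mod_cast hζ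
  have h1 : ∀ ρ, energy s ρ (xv i0 U ρ) = (1 / ζ : ℝ) *
      ∑ j', ∑ c, ∑ p, ∑ q, zz s i0 U j' c p ρ * zz s i0 U j' c q ρ := by
    intro ρ
    rw [energy_eq, div_eq_mul_inv, mul_comm, ← one_div]
    congr 1
    apply Finset.sum_congr rfl
    intro j' _
    apply Finset.sum_congr rfl
    intro c _
    rw [colsum hD s i0 U hU, sq, Finset.sum_mul_sum]
  simp_rw [h1]
  rw [avg_mul_left, avg_sum]
  simp_rw [avg_sum]
  have h2 : ∀ j' c, ∑ p, ∑ q, avg (fun ρ => zz s i0 U j' c p ρ * zz s i0 U j' c q ρ) ≤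
      ∑ p, (if s (ar U p) j' = c then 1 else 0) / (D : ℝ) ^ 2 := by
    intro j' c
    apply Finset.sum_le_sum
    intro p _
    rw [Finset.sum_eq_single p]
    · calc avg (fun ρ => zz s i0 U j' c p ρ * zz s i0 U j' c p ρ) ≤
          avg (fun _ : Idx ζ D m → Fin ζ → Bool => (if s (ar U p) j' = c then 1 else 0) / (D : ℝ) ^ 2) :=
            avg_mono (fun ρ => zz_sq s i0 U j' c p ρ)
        _ = _ := avg_const _
    · intro q _ hq
      exact cross s i0 U j' c p q (fun h => hq h.symm)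
    · intro h; exact absurd (mem_univ _) h
  have h3 : ∑ j', ∑ c, ∑ p, ∑ q, avg (fun ρ => zz s i0 U j' c p ρ * zz s i0 U j' c q ρ) ≤
      (ζ : ℝ) * (ζ * D / (D : ℝ) ^ 2) := by
    calc ∑ j', ∑ c, ∑ p, ∑ q, avg (fun ρ => zz s i0 U j' c p ρ * zz s i0 U j' c q ρ)
        ≤ ∑ j' : Fin ζ, ∑ c, ∑ p, (if s (ar U p) j' = c then 1 else 0) / (D : ℝ) ^ 2 :=
          Finset.sum_le_sum fun j' _ => Finset.sum_le_sum fun c _ => h2 j' c
      _ = ∑ j' : Fin ζ, ∑ p : Fin ζ × Fin D, 1 / (D : ℝ) ^ 2 := by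
          apply Finset.sum_congr rfl
          intro j' _
          rw [Finset.sum_comm]
          apply Finset.sum_congr rfl
          intro p _
          rw [← Finset.sum_div, Finset.sum_ite_eq]
          simp
      _ = (ζ : ℝ) * (ζ * D / (D : ℝ) ^ 2) := by
          rw [Finset.sum_const, Finset.sum_const, Finset.card_univ, Finset.card_univ, Fintype.card_prod,
            Fintype.card_fin, Fintype.card_fin, nsmul_eq_mul, nsmul_eq_mul]
          push_cast
          ring
  calc (1 / ζ : ℝ) * ∑ j', ∑ c, ∑ p, ∑ q, avg (fun ρ => zz s i0 U j' c p ρ * zz s i0 U j' c q ρ)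
      ≤ (1 / ζ : ℝ) * ((ζ : ℝ) * (ζ * D / (D : ℝ) ^ 2)) := by gcongr
    _ = ζ / D := by field_simp

theorem good_energy (hζ : 1 ≤ ζ) (hD : 1 ≤ D) (s : Idx ζ D m → Fin ζ → Fin b) (hs : ¬ NoGood s) {α : ℝ} (hα : 0 < α) :
    prob (fun ρ => ∀ x : Idx ζ D m → ℝ, α * ∑ i, x i ^ 2 ≤ energy s ρ x) ≤ ζ / D / α := by
  unfold NoGood at hs
  push Not at hs
  obtain ⟨i0, hi0⟩ := hs
  have : ∀ j t, ∃ u, s (Sum.inr (j, t, u)) j = s (Sum.inl i0) j := by
    intro j t
    have := hi0 j
    rw [mem_HH] at this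
    exact this t
  choose U hU using this
  calc prob (fun ρ => ∀ x : Idx ζ D m → ℝ, α * ∑ i, x i ^ 2 ≤ energy s ρ x)
      ≤ prob (fun ρ => α ≤ energy s ρ (xv i0 U ρ)) := by
        apply prob_mono
        intro ρ hρ
        refine le_trans ?_ (hρ (xv i0 U ρ))
        have h1 : 1 ≤ ∑ i, (xv i0 U ρ i) ^ 2 := by
          calc (1 : ℝ) = (xv i0 U ρ (Sum.inl i0)) ^ 2 := by simp [xv]
            _ ≤ _ := Finset.single_le_sum (f := fun i => (xv i0 U ρ i) ^ 2) (fun i _ => sq_nonneg _) (mem_univ _)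
        nlinarith
    _ ≤ avg (fun ρ => energy s ρ (xv i0 U ρ)) / α := by
        apply markov _ _ hα
        intro ρ
        unfold energy
        positivity
    _ ≤ ζ / D / α := by
        gcongr
        exact avg_energy hζ hD s i0 U hU

end

end Pool.Agent.V11315.SS
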