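import Pool.Agent.V11315.SS4

/-!
# SparseStack matrices of bounded sparsity are not oblivious subspace injections
-/

set_option autoImplicit false

namespace Pool.Agent.V11315.SS

open Finset Matrix

/-- The data of a SparseStack matrix with `n` rows and `ζ` blocks of length `b`: the positions and the signs. -/
abbrev Sample (n ζ b : ℕ) := (Fin n → Fin ζ → Fin b) × (Fin n → Fin ζ → Bool)

/-- The matrix `M` is injective on the subspace `V` with parameter `α`. -/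
def InjectiveOn {n : ℕ} {C : Type*} [Fintype C] (α : ℝ) (V : Submodule ℝ (Fin n → ℝ)) (M : Matrix (Fin n) C ℝ) : Prop :=
  ∀ x ∈ V, α * ∑ i, x i ^ 2 ≤ ∑ c, (Mᵀ *ᵥ x) c ^ 2

/-- the coordinate subspace -/
def coord (n r : ℕ) : Submodule ℝ (Fin n → ℝ) where
  carrier := {x | ∀ i : Fin n, r ≤ i.val → x i = 0}
  zero_mem' := by intro i _; rfl
  add_mem' := by
    intro x y hx hy i hi
    rw [Pi.add_apply, hx i hi, hy i hi, add_zero]
  smul_mem' := by
    intro c x hx i hi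
    rw [Pi.smul_apply, hx i hi, smul_zero]

theorem finrank_coord {n r : ℕ} (h : r ≤ n) : Module.finrank ℝ (coord n r) = r := by
  let e : coord n r ≃ₗ[ℝ] (Fin r → ℝ) :=
    { toFun := fun x i => x.1 (Fin.castLE h i)
      map_add' := by intro x y; rfl
      map_smul' := by intro c x; rfl
      invFun := fun g => ⟨fun i => if h : i.val < r then g ⟨i, h⟩ else 0, by
        intro i hi
        show (if h : i.val < r then g ⟨i, h⟩ else 0) = 0
        rw [dif_neg (by omega)]⟩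
      left_inv := by
        intro x
        ext i
        show (if h : i.val < r then _ else (0 : ℝ)) = _
        split_ifs with h1
        · rfl
        · exact (x.2 i (by omega)).symm
      right_inv := by
        intro g
        funext i
        show (if h : i.val < r then g ⟨i, h⟩ else 0) = g i
        rw [dif_pos i.2] }
  rw [e.finrank_eq, Module.finrank_fin_fun]

/-- too few columns -/
theorem few_columns {n r : ℕ} (hr : r ≤ n) {C : Type*} [Fintype C] (hC : Fintype.card C < r) {α : ℝ} (hα : 0 < α)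
    (M : Matrix (Fin n) C ℝ) : ¬ InjectiveOn α (coord n r) M := by
  intro h
  let L : coord n r →ₗ[ℝ] (C → ℝ) := (Matrix.mulVecLin Mᵀ).domRestrict (coord n r)
  have h1 : L.ker ≠ ⊥ := by
    apply LinearMap.ker_ne_bot_of_finrank_lt
    rw [finrank_coord hr, Module.finrank_pi]
    exact hC
  obtain ⟨x, hx, hx0⟩ := Submodule.exists_mem_ne_zero_of_ne_bot h1
  have h2 : Mᵀ *ᵥ x.1 = 0 := hx
  have h3 := h x.1 x.2
  rw [h2] at h3
  simp only [Pi.zero_apply] at h3
  have h4 : ∑ i, x.1 i ^ 2 ≤ 0 := by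
    by_contra hc
    push Not at hc
    have := mul_pos hα hc
    simp at h3
    linarith
  have h5 : ∀ i, x.1 i = 0 := by
    intro i
    have := Finset.single_le_sum (f := fun i => x.1 i ^ 2) (fun i _ => sq_nonneg _) (mem_univ i)
    have h6 : x.1 i ^ 2 ≤ 0 := by simpa using this.trans h4
    exact pow_eq_zero_iff (two_ne_zero) |>.mp (le_antisymm h6 (sq_nonneg _))
  apply hx0
  ext i
  exact h5 i

theorem reduce {n r ζ b : ℕ} {ι : Type} [Fintype ι] [DecidableEq ι] (hb : 1 ≤ b)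
    (φ : ι → Fin n) (hφ : Function.Injective φ) (hr : ∀ k, (φ k).val < r) (α : ℝ) :
    prob (fun ω : Sample n ζ b => InjectiveOn α (coord n r) (stack ω.1 ω.2)) ≤
      avg (fun s : ι → Fin ζ → Fin b => prob (fun ρ : ι → Fin ζ → Bool =>
        ∀ x : ι → ℝ, α * ∑ i, x i ^ 2 ≤ energy s ρ x)) := by
  classical
  have : Nonempty (Fin b) := ⟨⟨0, hb⟩⟩
  have h1 : prob (fun ω : Sample n ζ b => InjectiveOn α (coord n r) (stack ω.1 ω.2)) ≤
      prob (fun ω : Sample n ζ b => ∀ x : ι → ℝ, α * ∑ i, x i ^ 2 ≤ energy (ω.1 ∘ φ) (ω.2 ∘ φ) x) := by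
    apply prob_mono
    intro ω hω y
    let x : Fin n → ℝ := Function.extend φ y 0
    have hx1 : ∀ k, x (φ k) = y k := fun k => hφ.extend_apply y 0 k
    have hx0 : ∀ i, i ∉ Set.range φ → x i = 0 := by
      intro i hi
      have := Function.extend_apply' y (0 : Fin n → ℝ) i (by
        rintro ⟨a, ha⟩; exact hi ⟨a, ha⟩)
      exact this
    have hxV : x ∈ coord n r := by
      intro i hi
      apply hx0
      rintro ⟨k, hk⟩
      have := hr k
      rw [hk] at this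
      omega
    have h2 := hω x hxV
    have h3 : ∑ k, y k ^ 2 = ∑ i, x i ^ 2 := by
      apply Fintype.sum_of_injective φ hφ
      · intro i hi; rw [hx0 i hi]; norm_num
      · intro k; rw [hx1]
    have h4 : ∀ c, ((stack ω.1 ω.2)ᵀ *ᵥ x) c = ((stack (ω.1 ∘ φ) (ω.2 ∘ φ))ᵀ *ᵥ y) c := by
      intro c
      simp only [Matrix.mulVec, dotProduct]
      symm
      apply Fintype.sum_of_injective φ hφ
      · intro i hi; rw [hx0 i hi]; norm_num
      · intro k; rw [hx1]; rfl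
    rw [h3]
    refine le_trans h2 (le_of_eq ?_)
    unfold energy
    apply Finset.sum_congr rfl
    intro c _
    rw [h4]
  refine h1.trans (le_of_eq ?_)
  rw [prob_eq, avg_prod]
  have h5 : ∀ s : Fin n → Fin ζ → Fin b, avg (fun ρ : Fin n → Fin ζ → Bool =>
      if (∀ x : ι → ℝ, α * ∑ i, x i ^ 2 ≤ energy (s ∘ φ) (ρ ∘ φ) x) then (1 : ℝ) else 0) =
      prob (fun ρ : ι → Fin ζ → Bool => ∀ x : ι → ℝ, α * ∑ i, x i ^ 2 ≤ energy (s ∘ φ) ρ x) := by
    intro s
    rw [prob_eq, avg_comp_inj φ hφ (fun ρ : ι → Fin ζ → Bool =>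
      if (∀ x : ι → ℝ, α * ∑ i, x i ^ 2 ≤ energy (s ∘ φ) ρ x) then (1 : ℝ) else 0)]
  simp_rw [h5]
  rw [avg_comp_inj φ hφ (fun s : ι → Fin ζ → Fin b =>
    prob (fun ρ : ι → Fin ζ → Bool => ∀ x : ι → ℝ, α * ∑ i, x i ^ 2 ≤ energy s ρ x))]

theorem prob_le_one {α : Type*} [Fintype α] [Nonempty α] (E : α → Prop) : prob E ≤ 1 := by
  classical
  rw [prob_eq]
  calc avg (fun a => if E a then (1 : ℝ) else 0) ≤ avg (fun _ : α => (1 : ℝ)) := by
        apply avg_mono; intro a; split_ifs <;> norm_num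
    _ = 1 := avg_const 1

theorem main_bound {n r ζ b D m : ℕ} (hb : 1 ≤ b) (hζ : 1 ≤ ζ) (hD : 1 ≤ D) (hm : 1 ≤ m) (hr : r ≤ n)
    (hmr : m * (1 + ζ * D) ≤ r) {α : ℝ} (hα : 0 < α) :
    prob (fun ω : Sample n ζ b => InjectiveOn α (coord n r) (stack ω.1 ω.2)) ≤
      (ζ * (4 / (b * (qq m b ^ D) ^ 2)) + (1 - (qq m b ^ D / 2) ^ ζ) ^ m) + ζ / D / α := by
  classical
  have : Nonempty (Fin b) := ⟨⟨0, hb⟩⟩
  have hcard : Fintype.card (Idx ζ D m) ≤ Fintype.card (Fin r) := by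
    simp only [Idx, Hlp, Fintype.card_sum, Fintype.card_prod, Fintype.card_fin]
    calc m + ζ * (D * m) = m * (1 + ζ * D) := by ring
      _ ≤ r := hmr
  obtain ⟨φ0⟩ := Function.Embedding.nonempty_of_card_le hcard
  let φ : Idx ζ D m → Fin n := fun k => Fin.castLE hr (φ0 k)
  have hφ : Function.Injective φ := by
    intro k l h
    exact φ0.injective (Fin.castLE_injective hr h)
  refine (reduce hb φ hφ (fun k => (φ0 k).2) α).trans ?_
  have h1 : ∀ s : Idx ζ D m → Fin ζ → Fin b, prob (fun ρ : Idx ζ D m → Fin ζ → Bool =>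
        ∀ x : Idx ζ D m → ℝ, α * ∑ i, x i ^ 2 ≤ energy s ρ x) ≤ (if NoGood s then (1 : ℝ) else 0) + ζ / D / α := by
    intro s
    by_cases hs : NoGood s
    · rw [if_pos hs]
      have := prob_le_one (fun ρ : Idx ζ D m → Fin ζ → Bool =>
        ∀ x : Idx ζ D m → ℝ, α * ∑ i, x i ^ 2 ≤ energy s ρ x)
      have h2 : 0 ≤ (ζ : ℝ) / D / α := by positivity
      linarith
    · rw [if_neg hs, zero_add]
      exact good_energy hζ hD s hs hα
  refine (avg_mono h1).trans ?_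
  rw [avg_add, avg_const]
  have := prob_noGood (ζ := ζ) (D := D) hb hm
  rw [prob_eq] at this
  linarith

theorem qq_lower {m b : ℕ} (hb : 1 ≤ b) {κ : ℝ} (hκ : κ * b ≤ m) : 1 - Real.exp (-κ) ≤ qq m b := by
  have hb' : (1 : ℝ) ≤ b := by exact_mod_cast hb
  unfold qq
  have h0 : 0 ≤ 1 - 1 / (b : ℝ) := by
    have : 1 / (b : ℝ) ≤ 1 := by rw [div_le_one (by positivity)]; exact hb'
    linarith
  have h1 : (1 - 1 / (b : ℝ)) ^ m ≤ Real.exp (-κ) := by
    calc (1 - 1 / (b : ℝ)) ^ m ≤ (Real.exp (-(1 / (b : ℝ)))) ^ m := by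
          apply pow_le_pow_left₀ h0
          have := Real.add_one_le_exp (-(1 / (b : ℝ)))
          linarith
      _ = Real.exp (-(m / b)) := by
          rw [← Real.exp_nat_mul]; congr 1; ring
      _ ≤ Real.exp (-κ) := by
          apply Real.exp_le_exp.mpr
          have : κ ≤ m / b := by rw [le_div_iff₀ (by positivity)]; exact hκ
          linarith
  linarith

/-- one fixed sparsity -/
theorem fixed (ζ : ℕ) (hζ : 1 ≤ ζ) (C₂ α δ : ℝ) (hα : 0 < α) (hδ : δ < 1) :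
    ∃ r₀ : ℕ, ∀ r n b : ℕ, r₀ ≤ r → r ≤ n → 1 ≤ b → (b : ℝ) * ζ ≤ C₂ * r →
      prob (fun ω : Sample n ζ b => InjectiveOn α (coord n r) (stack ω.1 ω.2)) < 1 - δ := by
  set ε : ℝ := 1 - δ with hε
  have hε0 : 0 < ε := by linarith
  have hζ' : (1 : ℝ) ≤ ζ := by exact_mod_cast hζ
  obtain ⟨D, hD⟩ := exists_nat_gt (max 1 (2 * (ζ / α / ε)))
  have hD1 : (1 : ℝ) < D := lt_of_le_of_lt (le_max_left _ _) hD
  have hD2 : 2 * (ζ / α / ε) < D := lt_of_le_of_lt (le_max_right _ _) hD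
  have hDn : 1 ≤ D := by
    have : (1 : ℝ) ≤ D := hD1.le
    exact_mod_cast this
  have hDε : (ζ : ℝ) / D / α < ε / 2 := by
    rw [div_div, div_lt_iff₀ (by positivity)]
    have h1 : 2 * (ζ / α / ε) * (α * ε) = 2 * ζ := by field_simp
    have h2 : 2 * (ζ / α / ε) * (α * ε) < D * (α * ε) := by
      apply mul_lt_mul_of_pos_right hD2; positivity
    nlinarith
  set C : ℝ := max C₂ 1 with hC
  have hC0 : 0 < C := lt_of_lt_of_le one_pos (le_max_right _ _)
  set κ : ℝ := 1 / (2 * (1 + ζ * D) * C) with hκ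
  have hκ0 : 0 < κ := by positivity
  set q0 : ℝ := 1 - Real.exp (-κ) with hq0
  have hq0p : 0 < q0 := by
    have : Real.exp (-κ) < 1 := by rw [Real.exp_lt_one_iff]; linarith
    linarith
  have hq01 : q0 ≤ 1 := by
    have := Real.exp_pos (-κ)
    linarith
  set η : ℝ := (q0 ^ D / 2) ^ ζ with hη
  have hη0 : 0 < η := by positivity
  have hη1 : η ≤ 1 := by
    apply pow_le_one₀ (by positivity)
    have := pow_le_one₀ (n := D) hq0p.le hq01
    linarith
  obtain ⟨M, hM⟩ : ∃ M : ℕ, ∀ m : ℕ, M ≤ m → (1 - η) ^ m < ε / 4 := by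
    obtain ⟨M, hM⟩ := exists_pow_lt_of_lt_one (show (0 : ℝ) < ε / 4 by positivity) (show 1 - η < 1 by linarith)
    refine ⟨M, fun m hm => lt_of_le_of_lt ?_ hM⟩
    exact pow_le_pow_of_le_one (by linarith) (by linarith) hm
  obtain ⟨R, hR⟩ := exists_nat_gt (4 * (ζ : ℝ) ^ 2 / (q0 ^ D) ^ 2 / (ε / 4))
  refine ⟨max (max ((M + 1) * (1 + ζ * D)) (2 * (1 + ζ * D))) (R + 1), ?_⟩
  intro r n b hr0 hrn hb hbC
  have hb' : (1 : ℝ) ≤ b := by exact_mod_cast hb
  have hr1 : (M + 1) * (1 + ζ * D) ≤ r := le_trans (le_trans (le_max_left _ _) (le_max_left _ _)) hr0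
  have hr2 : 2 * (1 + ζ * D) ≤ r := le_trans (le_trans (le_max_right _ _) (le_max_left _ _)) hr0
  have hr3 : R + 1 ≤ r := le_trans (le_max_right _ _) hr0
  by_cases hbr : ζ * b < r
  · -- dimension
    have h0 : prob (fun ω : Sample n ζ b => InjectiveOn α (coord n r) (stack ω.1 ω.2)) ≤
        prob (fun _ : Sample n ζ b => False) := by
      apply prob_mono
      intro ω h
      refine few_columns hrn ?_ hα _ h
      rw [Fintype.card_prod, Fintype.card_fin, Fintype.card_fin]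
      exact hbr
    have h1 : prob (fun _ : Sample n ζ b => False) = 0 := by
      rw [prob_eq]; simp [avg]
    linarith
  push Not at hbr
  set m : ℕ := r / (1 + ζ * D) with hm
  have hmM : M + 1 ≤ m := by
    rw [hm, Nat.le_div_iff_mul_le (by omega)]
    exact hr1
  have hm1 : 1 ≤ m := by omega
  have hmr : m * (1 + ζ * D) ≤ r := Nat.div_mul_le_self r _
  have hm2 : r < (m + 1) * (1 + ζ * D) := by
    have := Nat.lt_succ_iff.mpr (le_refl (r / (1 + ζ * D)))
    rw [Nat.div_lt_iff_lt_mul (by omega)] at this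
    exact this
  have hκb : κ * b ≤ m := by
    have h1 : (b : ℝ) ≤ C * r := by
      have h2 : (b : ℝ) ≤ b * ζ := by nlinarith
      have h3 : C₂ * r ≤ C * r := by
        apply mul_le_mul_of_nonneg_right (le_max_left _ _) (by positivity)
      linarith
    have h4 : (r : ℝ) ≤ 2 * (1 + ζ * D) * m := by
      have h5 : (r : ℝ) < (m + 1) * (1 + ζ * D) := by exact_mod_cast hm2
      have h6 : (1 : ℝ) ≤ m := by exact_mod_cast hm1
      have h7 : (0 : ℝ) < 1 + ζ * D := by positivity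
      nlinarith
    calc κ * b ≤ κ * (C * r) := by gcongr
      _ ≤ κ * (C * (2 * (1 + ζ * D) * m)) := by gcongr
      _ = m := by rw [hκ]; field_simp
  have hqq : q0 ≤ qq m b := qq_lower hb hκb
  have hqq1 : qq m b ≤ 1 := qq_le_one hb
  have hbd := main_bound (n := n) (r := r) (ζ := ζ) (b := b) (D := D) (m := m) hb hζ hDn hm1 hrn hmr hα
  have hA : (ζ : ℝ) * (4 / (b * (qq m b ^ D) ^ 2)) < ε / 4 := by
    have hrb : (r : ℝ) ≤ ζ * b := by exact_mod_cast hbr
    have hRr : (R : ℝ) < r := by exact_mod_cast (by omega : R < r)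
    have h1 : (ζ : ℝ) * (4 / (b * (qq m b ^ D) ^ 2)) ≤ ζ * (4 / (b * (q0 ^ D) ^ 2)) := by gcongr
    have h2 : (ζ : ℝ) * (4 / (b * (q0 ^ D) ^ 2)) < ε / 4 := by
      rw [← mul_div_assoc, div_lt_iff₀ (by positivity)]
      have h3 := hR.trans hRr
      rw [div_div, div_lt_iff₀ (by positivity)] at h3
      -- 4 ζ^2 < r * ((q0^D)^2 * (ε/4)) ≤ ζ b ...
      have h4 : (r : ℝ) * ((q0 ^ D) ^ 2 * (ε / 4)) ≤ ζ * b * ((q0 ^ D) ^ 2 * (ε / 4)) := by gcongr
      have h5 : (ζ : ℝ) * (ζ * 4) < ζ * (ε / 4 * (b * (q0 ^ D) ^ 2)) := by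
        calc (ζ : ℝ) * (ζ * 4) = 4 * (ζ : ℝ) ^ 2 := by ring
          _ < (r : ℝ) * ((q0 ^ D) ^ 2 * (ε / 4)) := h3
          _ ≤ ζ * b * ((q0 ^ D) ^ 2 * (ε / 4)) := h4
          _ = ζ * (ε / 4 * (b * (q0 ^ D) ^ 2)) := by ring
      exact lt_of_mul_lt_mul_left h5 (by positivity)
    linarith
  have hB : (1 - (qq m b ^ D / 2) ^ ζ) ^ m < ε / 4 := by
    refine lt_of_le_of_lt ?_ (hM m (by omega))
    apply pow_le_pow_left₀
    · have h1 : (qq m b ^ D / 2) ^ ζ ≤ 1 := by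
        have h2 : 0 ≤ qq m b := by linarith
        apply pow_le_one₀ (by positivity)
        have := pow_le_one₀ (n := D) h2 hqq1
        linarith
      linarith
    · have : η ≤ (qq m b ^ D / 2) ^ ζ := by
        rw [hη]
        gcongr
      linarith
  linarith

/-- **SparseStack matrices of bounded sparsity are not oblivious subspace injections.** -/
theorem main (C₁ : ℕ) (C₂ α δ : ℝ) (hα : 0 < α) (hδ : δ < 1) :
    ∃ r₀ : ℕ, ∀ r n ζ b : ℕ, r₀ ≤ r → r ≤ n → 1 ≤ ζ → ζ ≤ C₁ → 1 ≤ b → (b : ℝ) * ζ ≤ C₂ * r →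
      ∃ V : Submodule ℝ (Fin n → ℝ), Module.finrank ℝ V = r ∧
        prob (fun ω : Sample n ζ b => InjectiveOn α V (stack ω.1 ω.2)) < 1 - δ := by
  have h : ∀ ζ : ℕ, ∃ r₀ : ℕ, 1 ≤ ζ → ∀ r n b : ℕ, r₀ ≤ r → r ≤ n → 1 ≤ b → (b : ℝ) * ζ ≤ C₂ * r →
      prob (fun ω : Sample n ζ b => InjectiveOn α (coord n r) (stack ω.1 ω.2)) < 1 - δ := by
    intro ζ
    by_cases hζ : 1 ≤ ζ
    · obtain ⟨r₀, hr₀⟩ := fixed ζ hζ C₂ α δ hα hδ
      exact ⟨r₀, fun _ => hr₀⟩
    · exact ⟨0, fun h => absurd h hζ⟩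
  choose R hR using h
  refine ⟨(Finset.range (C₁ + 1)).sup R, ?_⟩
  intro r n ζ b hr hrn hζ hζC hb hbC
  refine ⟨coord n r, finrank_coord hrn, hR ζ hζ r n b ?_ hrn hb hbC⟩
  refine le_trans ?_ hr
  exact Finset.le_sup (f := R) (Finset.mem_range.mpr (by omega))

end Pool.Agent.V11315.SS
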